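import Pool.Agent.Helper542.EG.Core

set_option autoImplicit false

namespace Pool.Agent.Helper542.EG

open Finset

variable {P : Par} {B : Bd P}

/-- number of atoms in the window of `x` -/
def KK (P : Par) (A : Finset ℤ) (x : ℤ) (i : ℕ) : ℕ :=
  (A.filter (fun n => n / (P.L i : ℤ) = x / (P.L i : ℤ))).card

theorem KK_succ_ge (A : Finset ℤ) (x : ℤ) (i : ℕ) : KK P A x i ≤ KK P A x (i+1) := by
  apply Finset.card_le_card
  intro n hn
  rw [Finset.mem_filter] at hn ⊢
  exact ⟨hn.1, div_eq_succ P hn.2⟩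

theorem KK_mono (A : Finset ℤ) (x : ℤ) {i j : ℕ} (h : i ≤ j) : KK P A x i ≤ KK P A x j :=
  monotone_nat_of_le_succ (KK_succ_ge (P := P) A x) h

theorem KK_zero_le (A : Finset ℤ) (x : ℤ) : KK P A x 0 ≤ P.L 0 := cnt_le P A 0 _

theorem chain {U M A : Finset ℤ} (hb : Bdd B U M) (hd : Disjoint U A) (x : ℤ) (c : ℕ)
    (F : ℕ → Finset ℤ) (H : ℤ → Prop)
    (hFH : ∀ i ≤ c, ∀ q ∈ F i, ∀ n : ℤ, n / (P.L i : ℤ) = q → H n)
    (hFpar : ∀ i ≤ c, ∀ q ∈ F i, q / (P.N i : ℤ) = x / (P.L (i+1) : ℤ))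
    (hFx : ∀ i ≤ c, x / (P.L i : ℤ) ∉ F i)
    (hA : ∀ i ≤ c, ∀ p ∈ A, p / (P.L (i+1) : ℤ) = x / (P.L (i+1) : ℤ) →
      p / (P.L i : ℤ) = x / (P.L i : ℤ) ∨ p / (P.L i : ℤ) ∈ F i)
    (hK : P.L 0 + 128 ≤ KK P A x (c+1))
    (hT : ∀ u, u < c →
      (∃ q' : ℤ, (∀ n : ℤ, n / (P.L (u+1) : ℤ) = q' → H n) ∧
        A.filter (fun n => n / (P.L (u+1) : ℤ) = x / (P.L (u+1) : ℤ)) ⊆ zone P u q') ∨
      P.zt u ≤ (F u).card) :
    ∃ e, H e ∧ Fine P U M A e := by
  classical
  have hb' : Bdd B (U ∪ A) M := hb.mono Finset.subset_union_left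
  by_contra hcon
  push Not at hcon
  -- few atoms in each layer
  have hn : ∀ i ≤ c, (A.filter (fun p => p / (P.L (i+1) : ℤ) = x / (P.L (i+1) : ℤ) ∧
      p / (P.L i : ℤ) ∈ F i)).card < 32 := by
    intro i hi
    by_contra hge
    push Not at hge
    obtain ⟨p, hp, e, he, hf⟩ := fine_many hb hd i (x / (P.L (i+1) : ℤ))
      (A.filter (fun p => p / (P.L (i+1) : ℤ) = x / (P.L (i+1) : ℤ) ∧
        p / (P.L i : ℤ) ∈ F i)) (Finset.filter_subset _ _)
      (fun p hp => (Finset.mem_filter.1 hp).2.1) hge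
    exact hcon e (hFH i hi _ (Finset.mem_filter.1 hp).2.2 e he) hf
  have hstep : ∀ i ≤ c, KK P A x (i+1) < KK P A x i + 32 := by
    intro i hi
    have h1 : A.filter (fun n => n / (P.L (i+1) : ℤ) = x / (P.L (i+1) : ℤ)) ⊆
        A.filter (fun n => n / (P.L i : ℤ) = x / (P.L i : ℤ)) ∪
        A.filter (fun p => p / (P.L (i+1) : ℤ) = x / (P.L (i+1) : ℤ) ∧ p / (P.L i : ℤ) ∈ F i) := by
      intro p hp
      rw [Finset.mem_filter] at hp
      rw [Finset.mem_union, Finset.mem_filter, Finset.mem_filter]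
      rcases hA i hi p hp.1 hp.2 with h | h
      · exact Or.inl ⟨hp.1, h⟩
      · exact Or.inr ⟨hp.1, hp.2, h⟩
    have h2 := (Finset.card_le_card h1).trans (Finset.card_union_le _ _)
    have h3 := hn i hi
    unfold KK
    omega
  have hK0 := KK_zero_le (P := P) A x
  have hc1 : 1 ≤ c := by
    by_contra hlt
    have hc0 : c = 0 := by omega
    have := hstep 0 (by omega)
    rw [hc0] at hK
    omega
  have hKc : P.L 0 + 96 < KK P A x c + 0 + 1 := by
    have := hstep c le_rfl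
    omega
  have hex : ∃ u, 1 ≤ u ∧ 32 ≤ KK P A x u := ⟨c, hc1, by omega⟩
  obtain ⟨u0, hu0, hmin⟩ : ∃ u0, (1 ≤ u0 ∧ 32 ≤ KK P A x u0) ∧
      ∀ v, v < u0 → ¬ (1 ≤ v ∧ 32 ≤ KK P A x v) :=
    ⟨Nat.find hex, Nat.find_spec hex, fun v hv => Nat.find_min hex hv⟩
  have hu0c' : u0 ≤ c := by
    by_contra hlt
    exact hmin c (by omega) ⟨hc1, by omega⟩
  have hKu0 : KK P A x u0 < P.L 0 + 64 := by
    rcases Nat.lt_or_ge u0 2 with h | h
    · have h1 : u0 = 1 := by omega
      rw [h1]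
      have := hstep 0 (by omega)
      simp only [Nat.zero_add] at this
      omega
    · have h1 : ¬ (32 ≤ KK P A x (u0 - 1)) := by
        intro h2
        exact hmin (u0 - 1) (by omega) ⟨by omega, h2⟩
      have h2 := hstep (u0 - 1) (by omega)
      have h3 : u0 - 1 + 1 = u0 := by omega
      rw [h3] at h2
      omega
  have hu0c : u0 < c := by
    rcases Nat.lt_or_ge u0 c with h | h
    · exact h
    · have : u0 = c := by omega
      rw [this] at hKu0
      omega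
  -- not trapped
  have hnt : ∀ u, u0 ≤ u + 1 → u < c → P.zt u ≤ (F u).card := by
    intro u hu huc
    rcases hT u huc with ⟨q', hq1, hq2⟩ | h
    · exfalso
      have h32 : 32 ≤ (A ∩ zone P u q').card := by
        have h1 : 32 ≤ KK P A x (u+1) := hu0.2.trans (KK_mono A x hu)
        refine h1.trans ?_
        apply Finset.card_le_card
        intro n hn
        exact Finset.mem_inter.2 ⟨(Finset.mem_filter.1 hn).1, hq2 hn⟩
      obtain ⟨e, he, hf⟩ := fine_trapped hb hd u q' h32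
      exact hcon e (hq1 e he) hf
    · exact h
  have htyp : ∀ l, u0 ≤ l → l < c → ∃ V ∈ F l, ff P (U ∪ A) M l V ≤ B.typ l := by
    intro l hl hlc
    by_contra hno
    push Not at hno
    have h1 := hnt l (by omega) hlc
    have h2 := hb' (l+1) (x / (P.L (l+1) : ℤ))
    rw [Phi_succ] at h2
    have h3 := zone_card_le P (U ∪ A) l (x / (P.L (l+1) : ℤ))
    have h4 : 0 ≤ P.w l * (2 * ((P.zt l * P.L l : ℕ) : ℝ) -
        (((U ∪ A) ∩ zone P l (x / (P.L (l+1) : ℤ))).card : ℝ)) :=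
      mul_nonneg (P.hw l) (by linarith)
    have hsub : insert (x / (P.L l : ℤ)) (F l) ⊆ kids P l (x / (P.L (l+1) : ℤ)) := by
      intro r hr
      rw [mem_kids]
      rcases Finset.mem_insert.1 hr with h | h
      · rw [h, div_succ]
      · exact hFpar l hlc.le r h
    have h5 : ∑ r ∈ insert (x / (P.L l : ℤ)) (F l), ff P (U ∪ A) M l r ≤
        ∑ r ∈ kids P l (x / (P.L (l+1) : ℤ)), ff P (U ∪ A) M l r :=
      Finset.sum_le_sum_of_subset_of_nonneg hsub (fun r _ _ => (ff_pos P _ _ _ _).le)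
    rw [Finset.sum_insert (hFx l hlc.le)] at h5
    have h6 : ((F l).card : ℝ) * B.typ l ≤ ∑ r ∈ F l, ff P (U ∪ A) M l r := by
      rw [← nsmul_eq_mul, ← Finset.sum_const]
      exact Finset.sum_le_sum (fun r hr => (hno r hr).le)
    have h7 := B.hzt l
    have h8 := ff_pos P (U ∪ A) M l (x / (P.L l : ℤ))
    have hbpos : 0 < B.b (l+1) := by
      have h9 : 0 ≤ ∑ r ∈ F l, ff P (U ∪ A) M l r :=
        Finset.sum_nonneg (fun r _ => (ff_pos P _ _ _ _).le)
      linarith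
    have hztc : (P.zt l : ℝ) ≤ ((F l).card : ℝ) := by exact_mod_cast h1
    have htpos : 0 ≤ B.typ l := by
      by_contra hneg
      push Not at hneg
      have : (P.zt l : ℝ) * B.typ l ≤ 0 := by
        have : (0:ℝ) ≤ P.zt l := Nat.cast_nonneg _
        nlinarith
      linarith
    have h10 : (P.zt l : ℝ) * B.typ l ≤ ((F l).card : ℝ) * B.typ l :=
      mul_le_mul_of_nonneg_right hztc htpos
    linarith
  -- not critical
  have hnc : ∀ l, u0 ≤ l → l < c → ff P (U ∪ A) M l (x / (P.L l : ℤ)) ≤ B.crit l := by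
    intro l hl hlc
    by_contra hcr
    push Not at hcr
    obtain ⟨V, hV, hfV⟩ := htyp l hl hlc
    have h32 : 32 ≤ (A.filter (fun n => n / (P.L l : ℤ) = x / (P.L l : ℤ))).card :=
      hu0.2.trans (KK_mono A x hl)
    obtain ⟨e, he, hf⟩ := fine_crit hb hd l (x / (P.L l : ℤ)) V
      (by rw [← div_succ, hFpar l hlc.le V hV]) hcr.le hfV h32
    exact hcon e (hFH l hlc.le V hV e he) hf
  -- the averaging case
  set T := A.filter (fun p => p / (P.L c : ℤ) = x / (P.L c : ℤ) ∧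
    p / (P.L u0 : ℤ) ≠ x / (P.L u0 : ℤ)) with hTdef
  have hTcard : 32 ≤ T.card := by
    have h1 : A.filter (fun n => n / (P.L c : ℤ) = x / (P.L c : ℤ)) ⊆
        A.filter (fun n => n / (P.L u0 : ℤ) = x / (P.L u0 : ℤ)) ∪ T := by
      intro p hp
      rw [Finset.mem_filter] at hp
      rw [Finset.mem_union, Finset.mem_filter, hTdef, Finset.mem_filter]
      by_cases h : p / (P.L u0 : ℤ) = x / (P.L u0 : ℤ)
      · exact Or.inl ⟨hp.1, h⟩
      · exact Or.inr ⟨hp.1, hp.2, h⟩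
    have h2 := (Finset.card_le_card h1).trans (Finset.card_union_le _ _)
    unfold KK at hKc hKu0
    omega
  have hpick : ∀ p ∈ T, ∃ e : ℤ, H e ∧ Even e ∧ e ∉ M ∧
      e / (P.L c : ℤ) = x / (P.L c : ℤ) ∧
      (∀ j < c, ff P (U ∪ A) M j (e / (P.L j : ℤ)) ≤ B.crit j) ∧
      Sg P (U ∪ A) M c e ≤ Sg P (U ∪ A) M c p := by
    intro p hp
    rw [hTdef, Finset.mem_filter] at hp
    obtain ⟨hpA, hpc, hpu⟩ := hp
    have hexj : ∃ j, p / (P.L j : ℤ) = x / (P.L j : ℤ) := ⟨c, hpc⟩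
    obtain ⟨j0, hj0, hj0min⟩ : ∃ j0, p / (P.L j0 : ℤ) = x / (P.L j0 : ℤ) ∧
        ∀ v, v < j0 → ¬ (p / (P.L v : ℤ) = x / (P.L v : ℤ)) :=
      ⟨Nat.find hexj, Nat.find_spec hexj, fun v hv => Nat.find_min hexj hv⟩
    have hj0u : u0 < j0 := by
      by_contra hle
      exact hpu (div_eq_of_le P (by omega) hj0)
    have hj0c : j0 ≤ c := by
      by_contra hlt
      exact hj0min c (by omega) hpc
    obtain ⟨l, rfl⟩ : ∃ l, j0 = l + 1 := ⟨j0 - 1, by omega⟩
    have hlc : l < c := by omega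
    have hul : u0 ≤ l := by omega
    have hpF : p / (P.L l : ℤ) ∈ F l := by
      rcases hA l hlc.le p hpA hj0 with h | h
      · exact absurd h (hj0min l (by omega))
      · exact h
    have hdivx : ∀ j, l + 1 ≤ j → p / (P.L j : ℤ) = x / (P.L j : ℤ) :=
      fun j hj => div_eq_of_le P hj hj0
    by_cases hcr : ff P (U ∪ A) M l (p / (P.L l : ℤ)) ≤ B.crit l
    · obtain ⟨e, h1, h2, h3, h4, h5⟩ := exists_disp hb' l p
      refine ⟨e, hFH l hlc.le _ hpF e h3, h1, h2, ?_, ?_, Sg_ext h3 h5 c hlc.le⟩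
      · rw [div_eq_of_le P hlc.le h3, hpc]
      · intro j hj
        rcases Nat.lt_trichotomy j l with h | h | h
        · exact h4 j h
        · rw [h, h3]; exact hcr
        · rw [div_eq_of_le P h.le h3, hdivx j h]
          exact hnc j (by omega) hj
    · push Not at hcr
      obtain ⟨V, hV, hfV⟩ := htyp l hul hlc
      obtain ⟨e, h1, h2, h3, h4⟩ := exists_cold hb' l V
      have hpe : e / (P.L (l+1) : ℤ) = p / (P.L (l+1) : ℤ) := by
        rw [div_succ, h3, hFpar l hlc.le V hV, hj0]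
      have hprod : 0 ≤ ∏ j ∈ Finset.range l, B.a j :=
        Finset.prod_nonneg (fun j _ => (B.ha0 j).le)
      have hS : Sg P (U ∪ A) M (l+1) e ≤ Sg P (U ∪ A) M (l+1) p := by
        apply Sg_cold_le_crit (B := B) l h4 _ hcr.le
        rw [h3]
        exact (mul_le_mul_of_nonneg_right hfV hprod).trans (B.htyp l)
      refine ⟨e, hFH l hlc.le _ hV e h3, h1, h2, ?_, ?_, Sg_ext hpe hS c hj0c⟩
      · rw [div_eq_of_le P hj0c hpe, hpc]
      · intro j hj
        rcases Nat.lt_trichotomy j l with h | h | h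
        · exact (h4 j h).trans (B.hac j)
        · rw [h, h3]; exact hfV.trans (B.htc l)
        · rw [div_eq_of_le P h hpe, hdivx j h]
          exact hnc j (by omega) hj
  have hTne : T.Nonempty := Finset.card_pos.1 (by omega)
  obtain ⟨p, hp, hpmin⟩ := Finset.exists_min_image T (fun p => Sg P (U ∪ A) M c p) hTne
  obtain ⟨e, h1, h2, h3, h4, h5, h6⟩ := hpick p hp
  refine hcon e h1 ⟨h2, h3, c, ?_⟩
  apply ok_of_atoms B hd h3 c (fun j hj => h5 j (by omega)) T
  · intro y hy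
    rw [hTdef, Finset.mem_filter] at hy
    rw [Finset.mem_filter, h4]
    exact ⟨hy.1, hy.2.1⟩
  · exact hTcard
  · intro y hy
    exact h6.trans (hpmin y hy)

end Pool.Agent.Helper542.EG
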