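import Mathlib

set_option autoImplicit false

namespace Pool.Agent.Helper542.EG

open Finset

/-- parameters of the block structure -/
structure Par where
  N : ℕ → ℕ
  L : ℕ → ℕ
  zt : ℕ → ℕ
  lam : ℕ → ℝ
  w : ℕ → ℝ
  h : ℕ
  hN : ∀ i, 0 < N i
  hh : 0 < h
  hL0 : L 0 = 2 * h
  hL : ∀ i, L (i + 1) = L i * N i
  hlam : ∀ i, 0 < lam i
  hw : ∀ i, 0 ≤ w i

variable (P : Par)

theorem Par.Lpos (i : ℕ) : 0 < P.L i := by
  induction i with
  | zero => rw [P.hL0]; have := P.hh; omega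
  | succ i ih => rw [P.hL]; exact Nat.mul_pos ih (P.hN i)

/-- number of elements of `S` in the window `q` of class `i` -/
def cnt (S : Finset ℤ) (i : ℕ) (q : ℤ) : ℕ := (S.filter (fun n => n / (P.L i : ℤ) = q)).card

/-- the zone of window `q` of class `i+1` -/
noncomputable def zone (i : ℕ) (q : ℤ) : Finset ℤ :=
  Finset.Ico (q * (P.L (i+1) : ℤ) - (P.zt i * P.L i : ℕ)) (q * (P.L (i+1) : ℤ)) ∪
  Finset.Ico ((q + 1) * (P.L (i+1) : ℤ)) ((q + 1) * (P.L (i+1) : ℤ) + (P.zt i * P.L i : ℕ))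

/-- children of window `q` of class `i+1` -/
noncomputable def kids (i : ℕ) (q : ℤ) : Finset ℤ := Finset.Ico (q * (P.N i : ℤ)) ((q + 1) * (P.N i : ℤ))

noncomputable def Phi (U M : Finset ℤ) : ℕ → ℤ → ℝ
  | 0, q => (cnt P M 0 q : ℝ) - (cnt P U 0 q : ℝ) / 16 + (P.L 0 : ℝ) / 16
  | (i+1), q => (∑ r ∈ kids P i q, Real.exp (P.lam i * Phi U M i r)) +
      P.w i * (2 * ((P.zt i * P.L i : ℕ) : ℝ) - ((U ∩ zone P i q).card : ℝ))

noncomputable def ff (U M : Finset ℤ) (i : ℕ) (q : ℤ) : ℝ := Real.exp (P.lam i * Phi P U M i q)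

theorem Phi_zero (U M : Finset ℤ) (q : ℤ) :
    Phi P U M 0 q = (cnt P M 0 q : ℝ) - (cnt P U 0 q : ℝ) / 16 + (P.L 0 : ℝ) / 16 := by
  rw [Phi]

theorem Phi_succ (U M : Finset ℤ) (i : ℕ) (q : ℤ) :
    Phi P U M (i+1) q = (∑ r ∈ kids P i q, ff P U M i r) +
      P.w i * (2 * ((P.zt i * P.L i : ℕ) : ℝ) - ((U ∩ zone P i q).card : ℝ)) := by
  rw [Phi]; rfl

theorem ff_pos (U M : Finset ℤ) (i : ℕ) (q : ℤ) : 0 < ff P U M i q := Real.exp_pos _

theorem mem_kids (i : ℕ) (q r : ℤ) : r ∈ kids P i q ↔ r / (P.N i : ℤ) = q := by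
  have hN : (0:ℤ) < (P.N i : ℤ) := by exact_mod_cast P.hN i
  rw [kids, Finset.mem_Ico]
  constructor
  · rintro ⟨h1, h2⟩
    apply le_antisymm
    · have : r / (P.N i : ℤ) < q + 1 := Int.ediv_lt_of_lt_mul hN h2
      omega
    · exact (Int.le_ediv_iff_mul_le hN).2 h1
  · intro h
    constructor
    · exact (Int.le_ediv_iff_mul_le hN).1 (le_of_eq h.symm)
    · have : r / (P.N i : ℤ) < q + 1 := by omega
      exact (Int.ediv_lt_iff_lt_mul hN).1 this

theorem div_succ (i : ℕ) (n : ℤ) : n / (P.L (i+1) : ℤ) = (n / (P.L i : ℤ)) / (P.N i : ℤ) := by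
  rw [P.hL, Nat.cast_mul]
  exact (Int.ediv_ediv_of_nonneg (by positivity)).symm

theorem div_eq_succ {i : ℕ} {n m : ℤ} (h : n / (P.L i : ℤ) = m / (P.L i : ℤ)) :
    n / (P.L (i+1) : ℤ) = m / (P.L (i+1) : ℤ) := by
  rw [div_succ, div_succ, h]

theorem div_eq_of_le {i j : ℕ} (hij : i ≤ j) {n m : ℤ} (h : n / (P.L i : ℤ) = m / (P.L i : ℤ)) :
    n / (P.L j : ℤ) = m / (P.L j : ℤ) := by
  induction j, hij using Nat.le_induction with
  | base => exact h
  | succ j _ ih => exact div_eq_succ P ih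

theorem cnt_le (S : Finset ℤ) (i : ℕ) (q : ℤ) : cnt P S i q ≤ P.L i := by
  have hL : (0:ℤ) < (P.L i : ℤ) := by exact_mod_cast P.Lpos i
  have : S.filter (fun n => n / (P.L i : ℤ) = q) ⊆
      Finset.Ico (q * (P.L i : ℤ)) ((q+1) * (P.L i : ℤ)) := by
    intro n hn
    rw [Finset.mem_filter] at hn
    rw [Finset.mem_Ico]
    constructor
    · exact (Int.le_ediv_iff_mul_le hL).1 (le_of_eq hn.2.symm)
    · have : n / (P.L i : ℤ) < q + 1 := by omega
      exact (Int.ediv_lt_iff_lt_mul hL).1 this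
  have h2 := Finset.card_le_card this
  rw [Int.card_Ico] at h2
  have h3 : ((q+1) * (P.L i : ℤ) - q * (P.L i : ℤ)).toNat = P.L i := by
    have : (q+1) * (P.L i : ℤ) - q * (P.L i : ℤ) = P.L i := by ring
    rw [this]; simp
  rw [h3] at h2
  exact h2

/-- locality and monotonicity -/
theorem Phi_mono {U U' M M' : Finset ℤ} (hU : U ⊆ U') :
    ∀ (i : ℕ) (q : ℤ), (∀ n : ℤ, n / (P.L i : ℤ) = q → (n ∈ M' ↔ n ∈ M)) →
      Phi P U' M' i q ≤ Phi P U M i q := by
  intro i
  induction i with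
  | zero =>
    intro q hq
    rw [Phi_zero, Phi_zero]
    have h1 : cnt P M' 0 q = cnt P M 0 q := by
      unfold cnt
      congr 1
      ext n
      simp only [Finset.mem_filter]
      constructor
      · rintro ⟨h, h'⟩; exact ⟨(hq n h').1 h, h'⟩
      · rintro ⟨h, h'⟩; exact ⟨(hq n h').2 h, h'⟩
    have h2 : cnt P U 0 q ≤ cnt P U' 0 q :=
      Finset.card_le_card (Finset.filter_subset_filter _ hU)
    have h2' : (cnt P U 0 q : ℝ) ≤ cnt P U' 0 q := by exact_mod_cast h2
    rw [h1]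
    linarith
  | succ i ih =>
    intro q hq
    rw [Phi_succ, Phi_succ]
    have h1 : ∑ r ∈ kids P i q, ff P U' M' i r ≤ ∑ r ∈ kids P i q, ff P U M i r := by
      apply Finset.sum_le_sum
      intro r hr
      rw [mem_kids] at hr
      unfold ff
      apply Real.exp_le_exp.2
      apply mul_le_mul_of_nonneg_left _ (P.hlam i).le
      apply ih
      intro n hn
      apply hq
      rw [div_succ, hn, hr]
    have h2 : (U ∩ zone P i q).card ≤ (U' ∩ zone P i q).card :=
      Finset.card_le_card (Finset.inter_subset_inter_right hU)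
    have h2' : ((U ∩ zone P i q).card : ℝ) ≤ ((U' ∩ zone P i q).card : ℝ) := by exact_mod_cast h2
    have h3 := P.hw i
    nlinarith [mul_le_mul_of_nonneg_left h2' h3]

theorem Phi_congr {U M M' : Finset ℤ} (i : ℕ) (q : ℤ)
    (h : ∀ n : ℤ, n / (P.L i : ℤ) = q → (n ∈ M' ↔ n ∈ M)) :
    Phi P U M' i q = Phi P U M i q :=
  le_antisymm (Phi_mono P (Finset.Subset.refl U) i q h)
    (Phi_mono P (Finset.Subset.refl U) i q (fun n hn => (h n hn).symm))

theorem zone_card_le (U : Finset ℤ) (i : ℕ) (q : ℤ) :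
    ((U ∩ zone P i q).card : ℝ) ≤ 2 * ((P.zt i * P.L i : ℕ) : ℝ) := by
  have h1 : (U ∩ zone P i q).card ≤ (zone P i q).card :=
    Finset.card_le_card Finset.inter_subset_right
  have h2 : (zone P i q).card ≤ (P.zt i * P.L i) + (P.zt i * P.L i) := by
    unfold zone
    refine (Finset.card_union_le _ _).trans ?_
    rw [Int.card_Ico, Int.card_Ico]
    have e1 : (q * (P.L (i+1) : ℤ) - (q * (P.L (i+1) : ℤ) - (P.zt i * P.L i : ℕ))).toNat
        = P.zt i * P.L i := by
      have : q * (P.L (i+1) : ℤ) - (q * (P.L (i+1) : ℤ) - (P.zt i * P.L i : ℕ))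
        = ((P.zt i * P.L i : ℕ) : ℤ) := by ring
      rw [this, Int.toNat_natCast]
    have e2 : ((q + 1) * (P.L (i+1) : ℤ) + (P.zt i * P.L i : ℕ) - (q + 1) * (P.L (i+1) : ℤ)).toNat
        = P.zt i * P.L i := by
      have : (q + 1) * (P.L (i+1) : ℤ) + (P.zt i * P.L i : ℕ) - (q + 1) * (P.L (i+1) : ℤ)
        = ((P.zt i * P.L i : ℕ) : ℤ) := by ring
      rw [this, Int.toNat_natCast]
    rw [e1, e2]
  have h3 : (U ∩ zone P i q).card ≤ (P.zt i * P.L i) + (P.zt i * P.L i) := h1.trans h2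
  have h4 : ((U ∩ zone P i q).card : ℝ) ≤ (((P.zt i * P.L i) + (P.zt i * P.L i) : ℕ) : ℝ) := by
    exact_mod_cast h3
  rw [Nat.cast_add] at h4
  linarith

theorem Phi_nonneg (U M : Finset ℤ) (i : ℕ) (q : ℤ) : 0 ≤ Phi P U M i q := by
  cases i with
  | zero =>
    rw [Phi_zero]
    have h1 : (cnt P U 0 q : ℝ) ≤ P.L 0 := by exact_mod_cast cnt_le P U 0 q
    have h2 : (0:ℝ) ≤ cnt P M 0 q := Nat.cast_nonneg _
    linarith
  | succ i =>
    rw [Phi_succ]
    have h1 : 0 ≤ ∑ r ∈ kids P i q, ff P U M i r :=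
      Finset.sum_nonneg (fun r _ => (ff_pos P U M i r).le)
    have h2 := zone_card_le P U i q
    have h3 : 0 ≤ P.w i * (2 * ((P.zt i * P.L i : ℕ) : ℝ) - ((U ∩ zone P i q).card : ℝ)) :=
      mul_nonneg (P.hw i) (by linarith)
    linarith

theorem one_le_ff (U M : Finset ℤ) (i : ℕ) (q : ℤ) : 1 ≤ ff P U M i q := by
  unfold ff
  rw [← Real.exp_zero]
  exact Real.exp_le_exp.2 (mul_nonneg (P.hlam i).le (Phi_nonneg P U M i q))

/-- propagation: once a window containing the mark does not increase, nothing above increases -/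
theorem propagate {U U' M : Finset ℤ} {e : ℤ} (hU : U ⊆ U') {c : ℕ}
    (hc : Phi P U' (insert e M) c (e / (P.L c : ℤ)) ≤ Phi P U M c (e / (P.L c : ℤ))) :
    ∀ i, c ≤ i → ∀ q, Phi P U' (insert e M) i q ≤ Phi P U M i q := by
  intro i hi
  induction i, hi using Nat.le_induction with
  | base =>
    intro q
    by_cases h : e / (P.L c : ℤ) = q
    · rw [← h]; exact hc
    · apply Phi_mono P hU
      intro n hn
      rw [Finset.mem_insert]
      constructor
      · rintro (h1 | h1)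
        · exact absurd (h1 ▸ hn) h
        · exact h1
      · exact fun h1 => Or.inr h1
  | succ i _ ih =>
    intro q
    rw [Phi_succ, Phi_succ]
    have h1 : ∑ r ∈ kids P i q, ff P U' (insert e M) i r ≤ ∑ r ∈ kids P i q, ff P U M i r := by
      apply Finset.sum_le_sum
      intro r _
      unfold ff
      exact Real.exp_le_exp.2 (mul_le_mul_of_nonneg_left (ih r) (P.hlam i).le)
    have h2 : (U ∩ zone P i q).card ≤ (U' ∩ zone P i q).card :=
      Finset.card_le_card (Finset.inter_subset_inter_right hU)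
    have h2' : ((U ∩ zone P i q).card : ℝ) ≤ ((U' ∩ zone P i q).card : ℝ) := by exact_mod_cast h2
    have h3 := P.hw i
    nlinarith [mul_le_mul_of_nonneg_left h2' h3]

/-- the sensitivity of a position -/
noncomputable def Sg (U M : Finset ℤ) (i : ℕ) (n : ℤ) : ℝ :=
  ∏ j ∈ Finset.range i, (P.lam j * ff P U M j (n / (P.L j : ℤ)))

theorem Sg_zero (U M : Finset ℤ) (n : ℤ) : Sg P U M 0 n = 1 := by simp [Sg]

theorem Sg_succ (U M : Finset ℤ) (i : ℕ) (n : ℤ) :
    Sg P U M (i+1) n = Sg P U M i n * (P.lam i * ff P U M i (n / (P.L i : ℤ))) := by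
  rw [Sg, Finset.prod_range_succ]; rfl

theorem Sg_pos (U M : Finset ℤ) (i : ℕ) (n : ℤ) : 0 < Sg P U M i n := by
  unfold Sg
  apply Finset.prod_pos
  intro j _
  exact mul_pos (P.hlam j) (ff_pos P U M j _)

theorem payment {U M A : Finset ℤ} (hd : Disjoint U A) :
    ∀ (i : ℕ) (q : ℤ),
      (1/16 : ℝ) * ∑ p ∈ A.filter (fun n => n / (P.L i : ℤ) = q), Sg P (U ∪ A) M i p ≤
        Phi P U M i q - Phi P (U ∪ A) M i q := by
  intro i
  induction i with
  | zero =>
    intro q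
    rw [Phi_zero, Phi_zero]
    have h1 : ∑ p ∈ A.filter (fun n => n / (P.L 0 : ℤ) = q), Sg P (U ∪ A) M 0 p
        = (cnt P A 0 q : ℝ) := by
      rw [Finset.sum_congr rfl (fun p _ => Sg_zero P (U ∪ A) M p)]
      simp [cnt]
    have h2 : cnt P (U ∪ A) 0 q = cnt P U 0 q + cnt P A 0 q := by
      unfold cnt
      rw [Finset.filter_union]
      exact Finset.card_union_of_disjoint (Finset.disjoint_filter_filter hd)
    rw [h1, h2]
    push_cast
    linarith
  | succ i ih =>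
    intro q
    rw [Phi_succ, Phi_succ]
    have hz : ((U ∩ zone P i q).card : ℝ) ≤ (((U ∪ A) ∩ zone P i q).card : ℝ) := by
      exact_mod_cast Finset.card_le_card
        (Finset.inter_subset_inter_right Finset.subset_union_left)
    have hz2 := mul_le_mul_of_nonneg_left hz (P.hw i)
    have hsum : (1/16 : ℝ) * ∑ p ∈ A.filter (fun n => n / (P.L (i+1) : ℤ) = q),
          Sg P (U ∪ A) M (i+1) p ≤
        ∑ r ∈ kids P i q, (ff P U M i r - ff P (U ∪ A) M i r) := by
      have hfib : ∑ p ∈ A.filter (fun n => n / (P.L (i+1) : ℤ) = q), Sg P (U ∪ A) M (i+1) p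
          = ∑ r ∈ kids P i q, ∑ p ∈ A.filter (fun n => n / (P.L i : ℤ) = r),
              Sg P (U ∪ A) M (i+1) p := by
        rw [← Finset.sum_fiberwise_of_maps_to (t := kids P i q)
          (g := fun n : ℤ => n / (P.L i : ℤ))]
        · apply Finset.sum_congr rfl
          intro r hr
          rw [mem_kids] at hr
          apply Finset.sum_congr _ (fun _ _ => rfl)
          ext n
          simp only [Finset.mem_filter]
          constructor
          · rintro ⟨⟨h1, _⟩, h3⟩; exact ⟨h1, h3⟩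
          · rintro ⟨h1, h3⟩
            refine ⟨⟨h1, ?_⟩, h3⟩
            rw [div_succ, h3, hr]
        · intro n hn
          rw [Finset.mem_filter] at hn
          rw [mem_kids, ← div_succ]
          exact hn.2
      rw [hfib, Finset.mul_sum]
      apply Finset.sum_le_sum
      intro r _
      have e1 : ∑ p ∈ A.filter (fun n => n / (P.L i : ℤ) = r), Sg P (U ∪ A) M (i+1) p
          = (P.lam i * ff P (U ∪ A) M i r) *
            ∑ p ∈ A.filter (fun n => n / (P.L i : ℤ) = r), Sg P (U ∪ A) M i p := by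
        rw [Finset.mul_sum]
        apply Finset.sum_congr rfl
        intro p hp
        rw [Finset.mem_filter] at hp
        rw [Sg_succ, hp.2]; ring
      rw [e1]
      have h1 := ih r
      set D := Phi P U M i r - Phi P (U ∪ A) M i r with hD
      have h2 : ff P U M i r = ff P (U ∪ A) M i r * Real.exp (P.lam i * D) := by
        unfold ff
        rw [← Real.exp_add]
        congr 1
        rw [hD]; ring
      have h3 := Real.add_one_le_exp (P.lam i * D)
      have h4 := ff_pos P (U ∪ A) M i r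
      have h5 := P.hlam i
      rw [h2]
      have h6 : ff P (U ∪ A) M i r * (P.lam i * D) ≤
          ff P (U ∪ A) M i r * Real.exp (P.lam i * D) - ff P (U ∪ A) M i r := by
        nlinarith
      have h7 : (P.lam i * ff P (U ∪ A) M i r) *
          ((1/16:ℝ) * ∑ p ∈ A.filter (fun n => n / (P.L i : ℤ) = r), Sg P (U ∪ A) M i p)
          ≤ (P.lam i * ff P (U ∪ A) M i r) * D :=
        mul_le_mul_of_nonneg_left h1 (by positivity)
      linarith
    rw [Finset.sum_sub_distrib] at hsum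
    linarith

/-- increment caused by the mark `e` -/
noncomputable def Dl (U M : Finset ℤ) (e : ℤ) (i : ℕ) : ℝ :=
  Phi P U (insert e M) i (e / (P.L i : ℤ)) - Phi P U M i (e / (P.L i : ℤ))

theorem Dl_zero {U M : Finset ℤ} {e : ℤ} (he : e ∉ M) : Dl P U M e 0 = 1 := by
  unfold Dl
  rw [Phi_zero, Phi_zero]
  have : cnt P (insert e M) 0 (e / (P.L 0 : ℤ)) = cnt P M 0 (e / (P.L 0 : ℤ)) + 1 := by
    unfold cnt
    rw [Finset.filter_insert, if_pos rfl, Finset.card_insert_of_notMem]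
    intro h
    exact he (Finset.mem_of_mem_filter e h)
  rw [this]
  push_cast
  ring

theorem Dl_succ {U M : Finset ℤ} {e : ℤ} (i : ℕ) :
    Dl P U M e (i+1) = ff P U M i (e / (P.L i : ℤ)) * (Real.exp (P.lam i * Dl P U M e i) - 1) := by
  unfold Dl
  rw [Phi_succ, Phi_succ]
  have hmem : e / (P.L i : ℤ) ∈ kids P i (e / (P.L (i+1) : ℤ)) := by
    rw [mem_kids, div_succ]
  rw [← Finset.add_sum_erase _ _ hmem, ← Finset.add_sum_erase _ (fun r => ff P U M i r) hmem]
  have h1 : ∑ r ∈ (kids P i (e / (P.L (i+1) : ℤ))).erase (e / (P.L i : ℤ)),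
        ff P U (insert e M) i r =
      ∑ r ∈ (kids P i (e / (P.L (i+1) : ℤ))).erase (e / (P.L i : ℤ)), ff P U M i r := by
    apply Finset.sum_congr rfl
    intro r hr
    rw [Finset.mem_erase] at hr
    unfold ff
    congr 2
    apply Phi_congr
    intro n hn
    rw [Finset.mem_insert]
    constructor
    · rintro (h1 | h1)
      · exact absurd (h1 ▸ hn).symm hr.1
      · exact h1
    · exact fun h1 => Or.inr h1
  rw [h1]
  have h2 : ff P U (insert e M) i (e / (P.L i : ℤ)) = ff P U M i (e / (P.L i : ℤ)) *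
      Real.exp (P.lam i * (Phi P U (insert e M) i (e / (P.L i : ℤ)) -
        Phi P U M i (e / (P.L i : ℤ)))) := by
    unfold ff
    rw [← Real.exp_add]
    congr 1
    ring
  rw [h2]
  ring

theorem Dl_nonneg {U M : Finset ℤ} {e : ℤ} (he : e ∉ M) (i : ℕ) : 0 ≤ Dl P U M e i := by
  induction i with
  | zero => rw [Dl_zero P he]; norm_num
  | succ i ih =>
    rw [Dl_succ]
    apply mul_nonneg (ff_pos P U M i _).le
    have := Real.add_one_le_exp (P.lam i * Dl P U M e i)
    have h2 := mul_nonneg (P.hlam i).le ih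
    linarith

theorem exp_sub_one_le {x : ℝ} (h0 : 0 ≤ x) (h1 : x ≤ 1) : Real.exp x - 1 ≤ x * (1 + x) := by
  have := Real.abs_exp_sub_one_sub_id_le (x := x) (by rw [abs_of_nonneg h0]; exact h1)
  have h2 := (abs_le.1 this).2
  nlinarith

/-- analytic bounds -/
structure Bd where
  b : ℕ → ℝ
  a : ℕ → ℝ
  crit : ℕ → ℝ
  typ : ℕ → ℝ
  lam0 : P.lam 0 ≤ 1/8
  lamc : ∀ i, P.lam (i+1) * crit i ≤ 1/8
  hb : ∀ i, b (i+1) ≤ Real.exp (P.lam i * b i)
  hb0 : b 0 < P.h
  ha0 : ∀ i, 0 < a i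
  ha : ∀ i, b (i+1) ≤ a i * P.N i
  hac : ∀ i, a i ≤ crit i
  hac2 : ∀ i, a i * ∏ j ∈ Finset.range i, a j ≤ crit i
  htyp : ∀ i, typ i * ∏ j ∈ Finset.range i, a j ≤ crit i
  htc : ∀ i, typ i ≤ crit i
  hzt : ∀ i, b (i+1) ≤ P.zt i * typ i
  hwz : ∀ i, 2 * ∏ j ∈ Finset.range (i+1), (P.lam j * a j) ≤ P.w i * 32

variable {P} (B : Bd P)

theorem Dl_small {U M : Finset ℤ} {e : ℤ} (he : e ∉ M) :
    ∀ i, (∀ j < i, ff P U M j (e / (P.L j : ℤ)) ≤ B.crit j) →
      P.lam i * Dl P U M e i ≤ (1/8) * (1/4)^i := by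
  intro i
  induction i with
  | zero =>
    intro _
    rw [Dl_zero P he]
    have := B.lam0
    linarith
  | succ i ih =>
    intro h
    have h1 := ih (fun j hj => h j (by omega))
    have h0 : 0 ≤ P.lam i * Dl P U M e i := mul_nonneg (P.hlam i).le (Dl_nonneg P he i)
    have hp : (1/4:ℝ)^i ≤ 1 := pow_le_one₀ (by norm_num) (by norm_num)
    have hp0 : (0:ℝ) < (1/4:ℝ)^i := by positivity
    have h2 := exp_sub_one_le h0 (by linarith)
    have h3 : Real.exp (P.lam i * Dl P U M e i) - 1 ≤ 2 * (P.lam i * Dl P U M e i) := by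
      nlinarith
    have h3' : 0 ≤ Real.exp (P.lam i * Dl P U M e i) - 1 := by
      have := Real.add_one_le_exp (P.lam i * Dl P U M e i)
      linarith
    rw [Dl_succ]
    have h4 := h i (by omega)
    have h5 : P.lam (i+1) * ff P U M i (e / (P.L i : ℤ)) ≤ 1/8 :=
      (mul_le_mul_of_nonneg_left h4 (P.hlam (i+1)).le).trans (B.lamc i)
    calc P.lam (i+1) * (ff P U M i (e / (P.L i : ℤ)) * (Real.exp (P.lam i * Dl P U M e i) - 1))
        = (P.lam (i+1) * ff P U M i (e / (P.L i : ℤ))) *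
            (Real.exp (P.lam i * Dl P U M e i) - 1) := by ring
      _ ≤ (1/8) * (Real.exp (P.lam i * Dl P U M e i) - 1) :=
          mul_le_mul_of_nonneg_right h5 h3'
      _ ≤ (1/8) * (2 * (P.lam i * Dl P U M e i)) := by
          apply mul_le_mul_of_nonneg_left h3 (by norm_num)
      _ ≤ (1/8) * (2 * ((1/8) * (1/4)^i)) := by
          apply mul_le_mul_of_nonneg_left _ (by norm_num)
          linarith
      _ ≤ (1/8) * (1/4)^(i+1) := by rw [pow_succ]; nlinarith

theorem Dl_le {U M : Finset ℤ} {e : ℤ} (he : e ∉ M) :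
    ∀ i, (∀ j, j + 1 < i → ff P U M j (e / (P.L j : ℤ)) ≤ B.crit j) →
      Dl P U M e i ≤ (2 - (1/2) * (1/4)^i) * Sg P U M i e := by
  intro i
  induction i with
  | zero =>
    intro _
    rw [Dl_zero P he, Sg_zero]
    norm_num
  | succ i ih =>
    intro h
    have h1 := ih (fun j hj => h j (by omega))
    have hs := Dl_small B he (U := U) i (fun j hj => h j (by omega))
    have h0 : 0 ≤ P.lam i * Dl P U M e i := mul_nonneg (P.hlam i).le (Dl_nonneg P he i)
    have hp : (1/4:ℝ)^i ≤ 1 := pow_le_one₀ (by norm_num) (by norm_num)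
    have hp0 : (0:ℝ) < (1/4:ℝ)^i := by positivity
    have h2 := exp_sub_one_le h0 (by linarith)
    rw [Dl_succ, Sg_succ]
    have hf := ff_pos P U M i (e / (P.L i : ℤ))
    have hS := Sg_pos P U M i e
    have hl := P.hlam i
    set x := P.lam i * Dl P U M e i with hx
    set f := ff P U M i (e / (P.L i : ℤ)) with hfdef
    set S := Sg P U M i e with hSdef
    have h3 : x * (1 + x) ≤ (P.lam i * ((2 - (1/2) * (1/4)^i) * S)) * (1 + (1/8) * (1/4)^i) := by
      apply mul_le_mul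
      · exact mul_le_mul_of_nonneg_left h1 hl.le
      · linarith
      · linarith
      · apply mul_nonneg hl.le
        apply mul_nonneg _ hS.le
        linarith
    have h4 : (2 - (1/2) * (1/4:ℝ)^i) * (1 + (1/8) * (1/4)^i) ≤ 2 - (1/2) * (1/4)^(i+1) := by
      rw [pow_succ]; nlinarith
    calc f * (Real.exp x - 1) ≤ f * (x * (1 + x)) := mul_le_mul_of_nonneg_left h2 hf.le
      _ ≤ f * ((P.lam i * ((2 - (1/2) * (1/4)^i) * S)) * (1 + (1/8) * (1/4)^i)) :=
          mul_le_mul_of_nonneg_left h3 hf.le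
      _ = ((2 - (1/2) * (1/4:ℝ)^i) * (1 + (1/8) * (1/4)^i)) * (S * (P.lam i * f)) := by ring
      _ ≤ (2 - (1/2) * (1/4)^(i+1)) * (S * (P.lam i * f)) := by
          apply mul_le_mul_of_nonneg_right h4
          positivity

theorem Dl_le_two {U M : Finset ℤ} {e : ℤ} (he : e ∉ M) (i : ℕ)
    (h : ∀ j, j + 1 < i → ff P U M j (e / (P.L j : ℤ)) ≤ B.crit j) :
    Dl P U M e i ≤ 2 * Sg P U M i e := by
  have h1 := Dl_le B he (U := U) i h
  have hS := Sg_pos P U M i e
  have hp0 : (0:ℝ) < (1/4:ℝ)^i := by positivity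
  nlinarith [mul_pos hp0 hS]

/-- averaging criterion -/
theorem ok_of_atoms {U M A : Finset ℤ} (hd : Disjoint U A) {e : ℤ} (he : e ∉ M) (c : ℕ)
    (hnc : ∀ j, j + 1 < c → ff P (U ∪ A) M j (e / (P.L j : ℤ)) ≤ B.crit j)
    (T : Finset ℤ) (hT : T ⊆ A.filter (fun n => n / (P.L c : ℤ) = e / (P.L c : ℤ)))
    (hcard : 32 ≤ T.card) (hS : ∀ p ∈ T, Sg P (U ∪ A) M c e ≤ Sg P (U ∪ A) M c p) :
    Phi P (U ∪ A) (insert e M) c (e / (P.L c : ℤ)) ≤ Phi P U M c (e / (P.L c : ℤ)) := by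
  have h1 := Dl_le_two B he (U := U ∪ A) c hnc
  have h2 := payment P (M := M) hd c (e / (P.L c : ℤ))
  have h3 : (32:ℝ) * Sg P (U ∪ A) M c e ≤
      ∑ p ∈ A.filter (fun n => n / (P.L c : ℤ) = e / (P.L c : ℤ)), Sg P (U ∪ A) M c p := by
    calc (32:ℝ) * Sg P (U ∪ A) M c e ≤ (T.card : ℝ) * Sg P (U ∪ A) M c e := by
          apply mul_le_mul_of_nonneg_right _ (Sg_pos P _ _ _ _).le
          exact_mod_cast hcard
      _ = ∑ _p ∈ T, Sg P (U ∪ A) M c e := by rw [Finset.sum_const, nsmul_eq_mul]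
      _ ≤ ∑ p ∈ T, Sg P (U ∪ A) M c p := Finset.sum_le_sum hS
      _ ≤ _ := Finset.sum_le_sum_of_subset_of_nonneg hT
          (fun p _ _ => (Sg_pos P _ _ _ _).le)
  unfold Dl at h1
  linarith

/-- static bound -/
theorem bounded_of_top {U M : Finset ℤ} (T : ℕ) (hT : ∀ q, Phi P U M T q ≤ B.b T) :
    ∀ i ≤ T, ∀ q, Phi P U M i q ≤ B.b i := by
  intro i hi
  refine Nat.decreasingInduction (motive := fun i _ => ∀ q, Phi P U M i q ≤ B.b i)
    (fun i hi ih => ?_) hT hi
  · intro q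
    have h1 := ih (q / (P.N i : ℤ))
    rw [Phi_succ] at h1
    have hmem : q ∈ kids P i (q / (P.N i : ℤ)) := by rw [mem_kids]
    have h2 : ff P U M i q ≤ ∑ r ∈ kids P i (q / (P.N i : ℤ)), ff P U M i r :=
      Finset.single_le_sum (fun r _ => (ff_pos P U M i r).le) hmem
    have h3 := zone_card_le P U i (q / (P.N i : ℤ))
    have h4 : 0 ≤ P.w i * (2 * ((P.zt i * P.L i : ℕ) : ℝ) -
        ((U ∩ zone P i (q / (P.N i : ℤ))).card : ℝ)) :=
      mul_nonneg (P.hw i) (by linarith)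
    have h5 : ff P U M i q ≤ Real.exp (P.lam i * B.b i) := by
      have := B.hb i
      linarith
    unfold ff at h5
    have h6 := Real.exp_le_exp.1 h5
    exact le_of_mul_le_mul_left h6 (P.hlam i)

variable {B}

/-- boundedness of all windows -/
def Bdd (B : Bd P) (U M : Finset ℤ) : Prop := ∀ i q, Phi P U M i q ≤ B.b i

theorem Bdd.mono {U U' M : Finset ℤ} (h : Bdd B U M) (hU : U ⊆ U') : Bdd B U' M :=
  fun i q => (Phi_mono P hU i q (fun _ _ => Iff.rfl)).trans (h i q)

theorem exists_free {U M : Finset ℤ} (h : Bdd B U M) (q : ℤ) :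
    ∃ e : ℤ, Even e ∧ e ∉ M ∧ e / (P.L 0 : ℤ) = q := by
  by_contra hcon
  push Not at hcon
  have h1 := h 0 q
  rw [Phi_zero] at h1
  have h2 : (cnt P U 0 q : ℝ) ≤ P.L 0 := by exact_mod_cast cnt_le P U 0 q
  have h3 := B.hb0
  have h4 : (cnt P M 0 q : ℝ) < P.h := by linarith
  have h5 : cnt P M 0 q < P.h := by exact_mod_cast h4
  have hL : (0:ℤ) < (P.L 0 : ℤ) := by exact_mod_cast P.Lpos 0
  have h6 : (Finset.range P.h).card ≤ (M.filter (fun n => n / (P.L 0 : ℤ) = q)).card := by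
    apply Finset.card_le_card_of_injOn (fun s : ℕ => q * (P.L 0 : ℤ) + 2 * (s : ℤ))
    · intro s hs
      rw [Finset.mem_coe, Finset.mem_range] at hs
      have hdiv : (q * (P.L 0 : ℤ) + 2 * (s:ℤ)) / (P.L 0 : ℤ) = q := by
        rw [Int.add_comm, Int.add_mul_ediv_right _ _ hL.ne']
        have : (2 * (s:ℤ)) / (P.L 0 : ℤ) = 0 := by
          apply Int.ediv_eq_zero_of_lt (by positivity)
          rw [P.hL0]; push_cast; omega
        rw [this]; ring
      have hev : Even (q * (P.L 0 : ℤ) + 2 * (s:ℤ)) := by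
        rw [P.hL0]
        exact ⟨q * P.h + s, by push_cast; ring⟩
      rw [Finset.mem_coe, Finset.mem_filter]
      refine ⟨?_, hdiv⟩
      by_contra hnot
      exact hcon _ hev hnot hdiv
    · intro s _ s' _ hss
      simp only at hss
      have : (s:ℤ) = s' := by linarith
      exact_mod_cast this
  rw [Finset.card_range] at h6
  unfold cnt at h5
  omega

/-- cold spots -/
theorem exists_cold {U M : Finset ℤ} (h : Bdd B U M) :
    ∀ (i : ℕ) (q : ℤ), ∃ e : ℤ, Even e ∧ e ∉ M ∧ e / (P.L i : ℤ) = q ∧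
      ∀ j < i, ff P U M j (e / (P.L j : ℤ)) ≤ B.a j := by
  intro i
  induction i with
  | zero =>
    intro q
    obtain ⟨e, h1, h2, h3⟩ := exists_free h q
    exact ⟨e, h1, h2, h3, fun j hj => absurd hj (Nat.not_lt_zero j)⟩
  | succ i ih =>
    intro q
    have hex : ∃ r ∈ kids P i q, ff P U M i r ≤ B.a i := by
      by_contra hcon
      push Not at hcon
      have h1 := h (i+1) q
      rw [Phi_succ] at h1
      have h3 := zone_card_le P U i q
      have h4 : 0 ≤ P.w i * (2 * ((P.zt i * P.L i : ℕ) : ℝ) - ((U ∩ zone P i q).card : ℝ)) :=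
        mul_nonneg (P.hw i) (by linarith)
      have hne : (kids P i q).Nonempty := by
        refine ⟨q * (P.N i : ℤ), ?_⟩
        rw [mem_kids]
        have hN : (P.N i : ℤ) ≠ 0 := by exact_mod_cast (P.hN i).ne'
        exact Int.mul_ediv_cancel q hN
      have h5 : ∑ _r ∈ kids P i q, B.a i < ∑ r ∈ kids P i q, ff P U M i r :=
        Finset.sum_lt_sum_of_nonempty hne hcon
      have hc : (kids P i q).card = P.N i := by
        unfold kids
        rw [Int.card_Ico]
        have : (q + 1) * (P.N i : ℤ) - q * (P.N i : ℤ) = P.N i := by ring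
        rw [this]; simp
      rw [Finset.sum_const, hc, nsmul_eq_mul] at h5
      have h6 := B.ha i
      nlinarith
    obtain ⟨r, hr, hfr⟩ := hex
    obtain ⟨e, h1, h2, h3, h4⟩ := ih r
    rw [mem_kids] at hr
    refine ⟨e, h1, h2, by rw [div_succ, h3, hr], ?_⟩
    intro j hj
    rcases Nat.lt_succ_iff_lt_or_eq.1 hj with hj' | hj'
    · exact h4 j hj'
    · rw [hj', h3]; exact hfr

theorem Sg_cold {U M : Finset ℤ} {e : ℤ} (i : ℕ)
    (h : ∀ j < i, ff P U M j (e / (P.L j : ℤ)) ≤ B.a j) :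
    Sg P U M i e ≤ (∏ j ∈ Finset.range i, P.lam j) * ∏ j ∈ Finset.range i, B.a j := by
  rw [← Finset.prod_mul_distrib]
  unfold Sg
  apply Finset.prod_le_prod
  · intro j _
    exact (mul_pos (P.hlam j) (ff_pos P U M j _)).le
  · intro j hj
    rw [Finset.mem_range] at hj
    exact mul_le_mul_of_nonneg_left (h j hj) (P.hlam j).le

theorem Sg_lower (U M : Finset ℤ) (e : ℤ) (i : ℕ) :
    (∏ j ∈ Finset.range i, P.lam j) ≤ Sg P U M i e := by
  unfold Sg
  apply Finset.prod_le_prod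
  · intro j _; exact (P.hlam j).le
  · intro j _
    have h1 := one_le_ff P U M j (e / (P.L j : ℤ))
    have h2 := P.hlam j
    nlinarith

/-- if the window of `p` of class `i` is critical, a cold spot with typical class-i window
is cheaper -/
theorem Sg_cold_le_crit {U M : Finset ℤ} {e p : ℤ} (i : ℕ)
    (h : ∀ j < i, ff P U M j (e / (P.L j : ℤ)) ≤ B.a j)
    (he : ff P U M i (e / (P.L i : ℤ)) * ∏ j ∈ Finset.range i, B.a j ≤ B.crit i)
    (hp : B.crit i ≤ ff P U M i (p / (P.L i : ℤ))) :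
    Sg P U M (i+1) e ≤ Sg P U M (i+1) p := by
  rw [Sg_succ, Sg_succ]
  have h1 := Sg_cold (P := P) (B := B) i h
  have h2 := Sg_lower (P := P) U M p i
  have hl := P.hlam i
  have hprod : 0 < ∏ j ∈ Finset.range i, P.lam j := Finset.prod_pos (fun j _ => P.hlam j)
  have hfe := ff_pos P U M i (e / (P.L i : ℤ))
  have hfp := ff_pos P U M i (p / (P.L i : ℤ))
  calc Sg P U M i e * (P.lam i * ff P U M i (e / (P.L i : ℤ)))
      ≤ ((∏ j ∈ Finset.range i, P.lam j) * ∏ j ∈ Finset.range i, B.a j) *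
          (P.lam i * ff P U M i (e / (P.L i : ℤ))) :=
        mul_le_mul_of_nonneg_right h1 (by positivity)
    _ = (∏ j ∈ Finset.range i, P.lam j) * P.lam i *
          (ff P U M i (e / (P.L i : ℤ)) * ∏ j ∈ Finset.range i, B.a j) := by ring
    _ ≤ (∏ j ∈ Finset.range i, P.lam j) * P.lam i * ff P U M i (p / (P.L i : ℤ)) := by
        apply mul_le_mul_of_nonneg_left (he.trans hp)
        positivity
    _ = (∏ j ∈ Finset.range i, P.lam j) * (P.lam i * ff P U M i (p / (P.L i : ℤ))) := by ring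
    _ ≤ Sg P U M i p * (P.lam i * ff P U M i (p / (P.L i : ℤ))) :=
        mul_le_mul_of_nonneg_right h2 (by positivity)

/-- displacement inside a window -/
theorem exists_disp {U M : Finset ℤ} (h : Bdd B U M) :
    ∀ (i : ℕ) (p : ℤ), ∃ e : ℤ, Even e ∧ e ∉ M ∧ e / (P.L i : ℤ) = p / (P.L i : ℤ) ∧
      (∀ j < i, ff P U M j (e / (P.L j : ℤ)) ≤ B.crit j) ∧
      Sg P U M i e ≤ Sg P U M i p := by
  intro i
  induction i with
  | zero =>
    intro p
    obtain ⟨e, h1, h2, h3⟩ := exists_free h (p / (P.L 0 : ℤ))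
    exact ⟨e, h1, h2, h3, fun j hj => absurd hj (Nat.not_lt_zero j), by
      rw [Sg_zero, Sg_zero]⟩
  | succ i ih =>
    intro p
    by_cases hc : ff P U M i (p / (P.L i : ℤ)) ≤ B.crit i
    · obtain ⟨e, h1, h2, h3, h4, h5⟩ := ih p
      refine ⟨e, h1, h2, div_eq_succ P h3, ?_, ?_⟩
      · intro j hj
        rcases Nat.lt_succ_iff_lt_or_eq.1 hj with hj' | hj'
        · exact h4 j hj'
        · rw [hj', h3]; exact hc
      · rw [Sg_succ, Sg_succ, h3]
        apply mul_le_mul_of_nonneg_right h5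
        exact (mul_pos (P.hlam i) (ff_pos P U M i _)).le
    · push Not at hc
      obtain ⟨e, h1, h2, h3, h4⟩ := exists_cold h (i+1) (p / (P.L (i+1) : ℤ))
      refine ⟨e, h1, h2, h3, ?_, ?_⟩
      · intro j hj
        exact (h4 j hj).trans (B.hac j)
      · apply Sg_cold_le_crit (B := B) i (fun j hj => h4 j (by omega)) _ hc.le
        have hprod : 0 ≤ ∏ j ∈ Finset.range i, B.a j :=
          Finset.prod_nonneg (fun j _ => (B.ha0 j).le)
        exact (mul_le_mul_of_nonneg_right (h4 i (by omega)) hprod).trans (B.hac2 i)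

theorem Sg_ext {U M : Finset ℤ} {e p : ℤ} {i : ℕ} (hdiv : e / (P.L i : ℤ) = p / (P.L i : ℤ))
    (h : Sg P U M i e ≤ Sg P U M i p) :
    ∀ c, i ≤ c → Sg P U M c e ≤ Sg P U M c p := by
  intro c hc
  induction c, hc using Nat.le_induction with
  | base => exact h
  | succ c hc ih =>
    rw [Sg_succ, Sg_succ, div_eq_of_le P hc hdiv]
    apply mul_le_mul_of_nonneg_right ih
    exact (mul_pos (P.hlam c) (ff_pos P U M c _)).le

/-- conclusion predicate -/
def Fine (P : Par) (U M A : Finset ℤ) (e : ℤ) : Prop :=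
  Even e ∧ e ∉ M ∧ ∃ c, Phi P (U ∪ A) (insert e M) c (e / (P.L c : ℤ)) ≤
    Phi P U M c (e / (P.L c : ℤ))

/-- many atoms in some windows of class `i` with one parent -/
theorem fine_many {U M A : Finset ℤ} (hb : Bdd B U M) (hd : Disjoint U A) (i : ℕ) (Q : ℤ)
    (T : Finset ℤ) (hT : T ⊆ A) (hTQ : ∀ p ∈ T, p / (P.L (i+1) : ℤ) = Q)
    (hcard : 32 ≤ T.card) :
    ∃ p ∈ T, ∃ e, e / (P.L i : ℤ) = p / (P.L i : ℤ) ∧ Fine P U M A e := by
  have hb' : Bdd B (U ∪ A) M := hb.mono Finset.subset_union_left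
  have hne : T.Nonempty := Finset.card_pos.1 (by omega)
  obtain ⟨p, hp, hmin⟩ := Finset.exists_min_image T (fun p => Sg P (U ∪ A) M (i+1) p) hne
  obtain ⟨e, h1, h2, h3, h4, h5⟩ := exists_disp hb' i p
  refine ⟨p, hp, e, h3, h1, h2, i+1, ?_⟩
  have hS := Sg_ext h3 h5 (i+1) (by omega)
  apply ok_of_atoms B hd h2 (i+1) (fun j hj => h4 j (by omega)) T
  · intro x hx
    rw [Finset.mem_filter]
    refine ⟨hT hx, ?_⟩
    rw [hTQ x hx, div_eq_succ P h3, hTQ p hp]
  · exact hcard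
  · intro x hx
    exact hS.trans (hmin x hx)

/-- the trapped case -/
theorem fine_trapped {U M A : Finset ℤ} (hb : Bdd B U M) (hd : Disjoint U A) (u : ℕ) (q : ℤ)
    (hz : 32 ≤ (A ∩ zone P u q).card) :
    ∃ e, e / (P.L (u+1) : ℤ) = q ∧ Fine P U M A e := by
  have hb' : Bdd B (U ∪ A) M := hb.mono Finset.subset_union_left
  obtain ⟨e, h1, h2, h3, h4⟩ := exists_cold hb' (u+1) q
  refine ⟨e, h3, h1, h2, u+1, ?_⟩
  rw [h3]
  have hD := Dl_le_two B h2 (U := U ∪ A) (u+1)
    (fun j hj => (h4 j (by omega)).trans (B.hac j))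
  have hS := Sg_cold (P := P) (B := B) (u+1) h4
  have hw := B.hwz u
  rw [← Finset.prod_mul_distrib] at hS
  unfold Dl at hD
  rw [h3] at hD
  have hpay : P.w u * 32 ≤ Phi P U M (u+1) q - Phi P (U ∪ A) M (u+1) q := by
    rw [Phi_succ, Phi_succ]
    have hs : ∑ r ∈ kids P u q, ff P (U ∪ A) M u r ≤ ∑ r ∈ kids P u q, ff P U M u r := by
      apply Finset.sum_le_sum
      intro r _
      unfold ff
      exact Real.exp_le_exp.2 (mul_le_mul_of_nonneg_left
        (Phi_mono P Finset.subset_union_left u r (fun _ _ => Iff.rfl)) (P.hlam u).le)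
    have hc : ((U ∪ A) ∩ zone P u q).card = (U ∩ zone P u q).card + (A ∩ zone P u q).card := by
      rw [Finset.union_inter_distrib_right]
      exact Finset.card_union_of_disjoint
        (Disjoint.mono Finset.inter_subset_left Finset.inter_subset_left hd)
    have hz' : (32:ℝ) ≤ ((A ∩ zone P u q).card : ℝ) := by exact_mod_cast hz
    rw [hc]
    push_cast
    have := mul_le_mul_of_nonneg_left hz' (P.hw u)
    nlinarith
  linarith

/-- the critical case -/
theorem fine_crit {U M A : Finset ℤ} (hb : Bdd B U M) (hd : Disjoint U A) (l : ℕ) (Y V : ℤ)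
    (hpar : Y / (P.N l : ℤ) = V / (P.N l : ℤ))
    (hY : B.crit l ≤ ff P (U ∪ A) M l Y) (hV : ff P (U ∪ A) M l V ≤ B.typ l)
    (hcard : 32 ≤ (A.filter (fun n => n / (P.L l : ℤ) = Y)).card) :
    ∃ e, e / (P.L l : ℤ) = V ∧ Fine P U M A e := by
  have hb' : Bdd B (U ∪ A) M := hb.mono Finset.subset_union_left
  obtain ⟨e, h1, h2, h3, h4⟩ := exists_cold hb' l V
  refine ⟨e, h3, h1, h2, l+1, ?_⟩
  have hprod : 0 ≤ ∏ j ∈ Finset.range l, B.a j :=
    Finset.prod_nonneg (fun j _ => (B.ha0 j).le)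
  apply ok_of_atoms B hd h2 (l+1) (fun j hj => (h4 j (by omega)).trans (B.hac j))
    (A.filter (fun n => n / (P.L l : ℤ) = Y))
  · intro x hx
    rw [Finset.mem_filter] at hx ⊢
    refine ⟨hx.1, ?_⟩
    rw [div_succ, div_succ, hx.2, h3, hpar]
  · exact hcard
  · intro x hx
    rw [Finset.mem_filter] at hx
    apply Sg_cold_le_crit (B := B) l h4
    · rw [h3]
      exact (mul_le_mul_of_nonneg_right hV hprod).trans (B.htyp l)
    · rw [hx.2]; exact hY

end Pool.Agent.Helper542.EG
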