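import Pool.Agent.Helper542.EG.Chain

set_option autoImplicit false

namespace Pool.Agent.Helper542.EG

open Finset

variable {P : Par} {B : Bd P}

theorem Par.LZpos (P : Par) (i : ℕ) : (0:ℤ) < (P.L i : ℤ) := by exact_mod_cast P.Lpos i
theorem Par.NZpos (P : Par) (i : ℕ) : (0:ℤ) < (P.N i : ℤ) := by exact_mod_cast P.hN i

theorem Par.LZ_succ (P : Par) (i : ℕ) : (P.L (i+1) : ℤ) = (P.L i : ℤ) * (P.N i : ℤ) := by
  rw [P.hL]; push_cast; ring

theorem div_lb (P : Par) (i : ℕ) (n : ℤ) : n / (P.L i : ℤ) * (P.L i : ℤ) ≤ n :=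
  Int.ediv_mul_le n (P.LZpos i).ne'

theorem div_ub (P : Par) (i : ℕ) (n : ℤ) : n < (n / (P.L i : ℤ) + 1) * (P.L i : ℤ) :=
  Int.lt_ediv_add_one_mul_self n (P.LZpos i)

/-- right end of the window of `x` -/
def rr (P : Par) (x : ℤ) (i : ℕ) : ℤ := (x / (P.L i : ℤ) + 1) * (P.L i : ℤ)

/-- left end of the window of `y` -/
def ll (P : Par) (y : ℤ) (i : ℕ) : ℤ := (y / (P.L i : ℤ)) * (P.L i : ℤ)

theorem kid_bounds (P : Par) (x : ℤ) (i : ℕ) :
    (x / (P.L (i+1) : ℤ)) * (P.N i : ℤ) ≤ x / (P.L i : ℤ) ∧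
    x / (P.L i : ℤ) < (x / (P.L (i+1) : ℤ) + 1) * (P.N i : ℤ) := by
  rw [div_succ]
  exact ⟨Int.ediv_mul_le _ (P.NZpos i).ne', Int.lt_ediv_add_one_mul_self _ (P.NZpos i)⟩

theorem rr_succ (P : Par) (x : ℤ) (i : ℕ) :
    rr P x (i+1) = ((x / (P.L (i+1) : ℤ) + 1) * (P.N i : ℤ)) * (P.L i : ℤ) := by
  unfold rr; rw [P.LZ_succ]; ring

theorem ll_succ (P : Par) (y : ℤ) (i : ℕ) :
    ll P y (i+1) = ((y / (P.L (i+1) : ℤ)) * (P.N i : ℤ)) * (P.L i : ℤ) := by
  unfold ll; rw [P.LZ_succ]; ring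

theorem rr_le_succ (P : Par) (x : ℤ) (i : ℕ) : rr P x i ≤ rr P x (i+1) := by
  rw [rr_succ]; unfold rr
  have h := (kid_bounds P x i).2
  exact mul_le_mul_of_nonneg_right (by omega) (P.LZpos i).le

theorem rr_mono (P : Par) (x : ℤ) {i j : ℕ} (h : i ≤ j) : rr P x i ≤ rr P x j :=
  monotone_nat_of_le_succ (rr_le_succ P x) h

theorem ll_succ_le (P : Par) (y : ℤ) (i : ℕ) : ll P y (i+1) ≤ ll P y i := by
  rw [ll_succ]; unfold ll
  have h := (kid_bounds P y i).1
  exact mul_le_mul_of_nonneg_right h (P.LZpos i).le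

theorem ll_anti (P : Par) (y : ℤ) {i j : ℕ} (h : i ≤ j) : ll P y j ≤ ll P y i :=
  antitone_nat_of_succ_le (ll_succ_le P y) h

theorem L_mono (P : Par) {i j : ℕ} (h : i ≤ j) : (P.L i : ℤ) ≤ (P.L j : ℤ) := by
  have : Monotone P.L := monotone_nat_of_le_succ (fun i => by
    rw [P.hL]; exact Nat.le_mul_of_pos_right _ (P.hN i))
  exact_mod_cast this h

/-- the windows of class i to the right of the one of x in the common parent -/
noncomputable def FR (P : Par) (x : ℤ) (i : ℕ) : Finset ℤ :=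
  Finset.Ico (x / (P.L i : ℤ) + 1) ((x / (P.L (i+1) : ℤ) + 1) * (P.N i : ℤ))

noncomputable def FL (P : Par) (y : ℤ) (i : ℕ) : Finset ℤ :=
  Finset.Ico ((y / (P.L (i+1) : ℤ)) * (P.N i : ℤ)) (y / (P.L i : ℤ))

theorem FR_cover (P : Par) {A : Finset ℤ} {x : ℤ} (hx : ∀ p ∈ A, x ≤ p) (i : ℕ) (p : ℤ)
    (hp : p ∈ A) (h : p / (P.L (i+1) : ℤ) = x / (P.L (i+1) : ℤ)) :
    p / (P.L i : ℤ) = x / (P.L i : ℤ) ∨ p / (P.L i : ℤ) ∈ FR P x i := by
  have h1 : x / (P.L i : ℤ) ≤ p / (P.L i : ℤ) := Int.ediv_le_ediv (P.LZpos i) (hx p hp)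
  rcases eq_or_lt_of_le h1 with h2 | h2
  · exact Or.inl h2.symm
  · right
    unfold FR
    rw [Finset.mem_Ico]
    refine ⟨by omega, ?_⟩
    rw [← h]
    exact (kid_bounds P p i).2

theorem FL_cover (P : Par) {A : Finset ℤ} {y : ℤ} (hy : ∀ p ∈ A, p ≤ y) (i : ℕ) (p : ℤ)
    (hp : p ∈ A) (h : p / (P.L (i+1) : ℤ) = y / (P.L (i+1) : ℤ)) :
    p / (P.L i : ℤ) = y / (P.L i : ℤ) ∨ p / (P.L i : ℤ) ∈ FL P y i := by
  have h1 : p / (P.L i : ℤ) ≤ y / (P.L i : ℤ) := Int.ediv_le_ediv (P.LZpos i) (hy p hp)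
  rcases eq_or_lt_of_le h1 with h2 | h2
  · exact Or.inl h2
  · right
    unfold FL
    rw [Finset.mem_Ico]
    refine ⟨?_, h2⟩
    rw [← h]
    exact (kid_bounds P p i).1

theorem FR_par (P : Par) (x : ℤ) (i : ℕ) (q : ℤ) (hq : q ∈ FR P x i) :
    q / (P.N i : ℤ) = x / (P.L (i+1) : ℤ) := by
  unfold FR at hq
  rw [Finset.mem_Ico] at hq
  rw [← mem_kids]
  unfold kids
  rw [Finset.mem_Ico]
  have := (kid_bounds P x i).1
  exact ⟨by omega, hq.2⟩

theorem FL_par (P : Par) (y : ℤ) (i : ℕ) (q : ℤ) (hq : q ∈ FL P y i) :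
    q / (P.N i : ℤ) = y / (P.L (i+1) : ℤ) := by
  unfold FL at hq
  rw [Finset.mem_Ico] at hq
  rw [← mem_kids]
  unfold kids
  rw [Finset.mem_Ico]
  have := (kid_bounds P y i).2
  exact ⟨hq.1, by omega⟩

theorem find_c_right (P : Par) {A : Finset ℤ} {x : ℤ} (hx : ∀ p ∈ A, x ≤ p) :
    ∀ m, P.L 0 < KK P A x m →
      ∃ c, c < m ∧ (FR P x c).Nonempty ∧ KK P A x (c+1) = KK P A x m ∧
        rr P x (c+1) = rr P x m := by
  intro m
  induction m with
  | zero =>
    intro h
    exact absurd (KK_zero_le (P := P) A x) (by omega)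
  | succ m ih =>
    intro h
    by_cases hne : (FR P x m).Nonempty
    · exact ⟨m, by omega, hne, rfl, rfl⟩
    · rw [Finset.not_nonempty_iff_eq_empty] at hne
      have hK : KK P A x (m+1) = KK P A x m := by
        apply le_antisymm _ (KK_succ_ge A x m)
        apply Finset.card_le_card
        intro p hp
        rw [Finset.mem_filter] at hp ⊢
        refine ⟨hp.1, ?_⟩
        rcases FR_cover P hx m p hp.1 hp.2 with h1 | h1
        · exact h1
        · rw [hne] at h1; exact absurd h1 (Finset.notMem_empty _)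
      have hr : rr P x (m+1) = rr P x m := by
        apply le_antisymm _ (rr_le_succ P x m)
        rw [rr_succ]
        unfold rr
        apply mul_le_mul_of_nonneg_right _ (P.LZpos m).le
        unfold FR at hne
        rw [Finset.Ico_eq_empty_iff] at hne
        omega
      obtain ⟨c, h1, h2, h3, h4⟩ := ih (by omega)
      exact ⟨c, by omega, h2, by omega, by omega⟩

theorem find_c_left (P : Par) {A : Finset ℤ} {y : ℤ} (hy : ∀ p ∈ A, p ≤ y) :
    ∀ m, P.L 0 < KK P A y m →
      ∃ c, c < m ∧ (FL P y c).Nonempty ∧ KK P A y (c+1) = KK P A y m ∧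
        ll P y (c+1) = ll P y m := by
  intro m
  induction m with
  | zero =>
    intro h
    exact absurd (KK_zero_le (P := P) A y) (by omega)
  | succ m ih =>
    intro h
    by_cases hne : (FL P y m).Nonempty
    · exact ⟨m, by omega, hne, rfl, rfl⟩
    · rw [Finset.not_nonempty_iff_eq_empty] at hne
      have hK : KK P A y (m+1) = KK P A y m := by
        apply le_antisymm _ (KK_succ_ge A y m)
        apply Finset.card_le_card
        intro p hp
        rw [Finset.mem_filter] at hp ⊢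
        refine ⟨hp.1, ?_⟩
        rcases FL_cover P hy m p hp.1 hp.2 with h1 | h1
        · exact h1
        · rw [hne] at h1; exact absurd h1 (Finset.notMem_empty _)
      have hr : ll P y (m+1) = ll P y m := by
        apply le_antisymm (ll_succ_le P y m)
        rw [ll_succ]
        unfold ll
        apply mul_le_mul_of_nonneg_right _ (P.LZpos m).le
        unfold FL at hne
        rw [Finset.Ico_eq_empty_iff] at hne
        omega
      obtain ⟨c, h1, h2, h3, h4⟩ := ih (by omega)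
      exact ⟨c, by omega, h2, by omega, by omega⟩

theorem left_end {U M A : Finset ℤ} (hb : Bdd B U M) (hd : Disjoint U A) (x y : ℤ)
    (hx : ∀ p ∈ A, x ≤ p) (m : ℕ) (hm : rr P x m ≤ y) (hK : P.L 0 + 128 ≤ KK P A x m) :
    ∃ e, (x ≤ e ∧ e ≤ y) ∧ Fine P U M A e := by
  obtain ⟨c, hcm, hne, hKc, hrc⟩ := find_c_right P hx m (by omega)
  have hne' : x / (P.L c : ℤ) + 1 < (x / (P.L (c+1) : ℤ) + 1) * (P.N c : ℤ) := by
    obtain ⟨q, hq⟩ := hne
    unfold FR at hq
    rw [Finset.mem_Ico] at hq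
    omega
  have hrc2 : rr P x c + (P.L c : ℤ) ≤ rr P x (c+1) := by
    rw [rr_succ]; unfold rr
    have : (x / (P.L c : ℤ) + 1 + 1) * (P.L c : ℤ) ≤
        ((x / (P.L (c+1) : ℤ) + 1) * (P.N c : ℤ)) * (P.L c : ℤ) :=
      mul_le_mul_of_nonneg_right (by omega) (P.LZpos c).le
    linarith
  apply chain hb hd x c (FR P x) (fun e => x ≤ e ∧ e ≤ y)
  · intro i hi q hq n hn
    unfold FR at hq
    rw [Finset.mem_Ico] at hq
    have h1 := div_lb P i n
    have h2 := div_ub P i n
    rw [hn] at h1 h2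
    have h3 := div_ub P i x
    constructor
    · have : (x / (P.L i : ℤ) + 1) * (P.L i : ℤ) ≤ q * (P.L i : ℤ) :=
        mul_le_mul_of_nonneg_right hq.1 (P.LZpos i).le
      linarith
    · have h4 : (q + 1) * (P.L i : ℤ) ≤ rr P x (i+1) := by
        rw [rr_succ]
        exact mul_le_mul_of_nonneg_right (by omega) (P.LZpos i).le
      have h5 := rr_mono P x (show i + 1 ≤ c + 1 by omega)
      linarith
  · intro i _ q hq
    exact FR_par P x i q hq
  · intro i _ h
    unfold FR at h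
    rw [Finset.mem_Ico] at h
    omega
  · intro i _ p hp h
    exact FR_cover P hx i p hp h
  · omega
  · intro u hu
    by_cases htr : rr P x (u+1) - x ≤ ((P.zt u * P.L u : ℕ) : ℤ)
    · left
      refine ⟨x / (P.L (u+1) : ℤ) + 1, ?_, ?_⟩
      · intro n hn
        have h1 := div_lb P (u+1) n
        have h2 := div_ub P (u+1) n
        rw [hn] at h1 h2
        have h3 := div_ub P (u+1) x
        refine ⟨by linarith, ?_⟩
        have h4 : (x / (P.L (u+1) : ℤ) + 1 + 1) * (P.L (u+1) : ℤ) =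
            rr P x (u+1) + (P.L (u+1) : ℤ) := by unfold rr; ring
        have h5 := rr_mono P x (show u + 1 ≤ c by omega)
        have h6 := L_mono P (show u + 1 ≤ c by omega)
        linarith
      · intro n hn
        rw [Finset.mem_filter] at hn
        unfold zone
        rw [Finset.mem_union, Finset.mem_Ico]
        left
        have h2 := div_ub P (u+1) n
        rw [hn.2] at h2
        have h3 := hx n hn.1
        unfold rr at htr
        exact ⟨by linarith, h2⟩
    · right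
      push Not at htr
      have hcard : ((FR P x u).card : ℤ) =
          (x / (P.L (u+1) : ℤ) + 1) * (P.N u : ℤ) - (x / (P.L u : ℤ) + 1) := by
        unfold FR
        rw [Int.card_Ico]
        have := (kid_bounds P x u).2
        rw [Int.toNat_of_nonneg (by omega)]
      have h1 : ((FR P x u).card : ℤ) * (P.L u : ℤ) = rr P x (u+1) - rr P x u := by
        rw [hcard, rr_succ]; unfold rr; ring
      have h2 : rr P x u ≤ x + (P.L u : ℤ) := by
        unfold rr
        have := div_lb P u x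
        linarith
      push_cast at htr
      by_contra hlt
      push Not at hlt
      have h3 : ((FR P x u).card : ℤ) + 1 ≤ (P.zt u : ℤ) := by exact_mod_cast hlt
      have h4 : (((FR P x u).card : ℤ) + 1) * (P.L u : ℤ) ≤ (P.zt u : ℤ) * (P.L u : ℤ) :=
        mul_le_mul_of_nonneg_right h3 (P.LZpos u).le
      linarith

theorem right_end {U M A : Finset ℤ} (hb : Bdd B U M) (hd : Disjoint U A) (x y : ℤ)
    (hy : ∀ p ∈ A, p ≤ y) (m : ℕ) (hm : x < ll P y m) (hK : P.L 0 + 128 ≤ KK P A y m) :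
    ∃ e, (x ≤ e ∧ e ≤ y) ∧ Fine P U M A e := by
  obtain ⟨c, hcm, hne, hKc, hrc⟩ := find_c_left P hy m (by omega)
  have hne' : (y / (P.L (c+1) : ℤ)) * (P.N c : ℤ) < y / (P.L c : ℤ) := by
    obtain ⟨q, hq⟩ := hne
    unfold FL at hq
    rw [Finset.mem_Ico] at hq
    omega
  have hrc2 : ll P y (c+1) + (P.L c : ℤ) ≤ ll P y c := by
    rw [ll_succ]; unfold ll
    have : ((y / (P.L (c+1) : ℤ)) * (P.N c : ℤ) + 1) * (P.L c : ℤ) ≤
        (y / (P.L c : ℤ)) * (P.L c : ℤ) :=
      mul_le_mul_of_nonneg_right (by omega) (P.LZpos c).le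
    linarith
  apply chain hb hd y c (FL P y) (fun e => x ≤ e ∧ e ≤ y)
  · intro i hi q hq n hn
    unfold FL at hq
    rw [Finset.mem_Ico] at hq
    have h1 := div_lb P i n
    have h2 := div_ub P i n
    rw [hn] at h1 h2
    have h3 := div_lb P i y
    constructor
    · have h4 : ll P y (i+1) ≤ q * (P.L i : ℤ) := by
        rw [ll_succ]
        exact mul_le_mul_of_nonneg_right hq.1 (P.LZpos i).le
      have h5 := ll_anti P y (show i + 1 ≤ c + 1 by omega)
      linarith
    · have : (q + 1) * (P.L i : ℤ) ≤ (y / (P.L i : ℤ)) * (P.L i : ℤ) :=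
        mul_le_mul_of_nonneg_right (by omega) (P.LZpos i).le
      linarith
  · intro i _ q hq
    exact FL_par P y i q hq
  · intro i _ h
    unfold FL at h
    rw [Finset.mem_Ico] at h
    omega
  · intro i _ p hp h
    exact FL_cover P hy i p hp h
  · omega
  · intro u hu
    by_cases htr : y + 1 - ll P y (u+1) ≤ ((P.zt u * P.L u : ℕ) : ℤ)
    · left
      refine ⟨y / (P.L (u+1) : ℤ) - 1, ?_, ?_⟩
      · intro n hn
        have h1 := div_lb P (u+1) n
        have h2 := div_ub P (u+1) n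
        rw [hn] at h1 h2
        have h3 := div_lb P (u+1) y
        have h4 : (y / (P.L (u+1) : ℤ) - 1) * (P.L (u+1) : ℤ) =
            ll P y (u+1) - (P.L (u+1) : ℤ) := by unfold ll; ring
        have h4' : (y / (P.L (u+1) : ℤ) - 1 + 1) * (P.L (u+1) : ℤ) =
            ll P y (u+1) := by unfold ll; ring
        have h5 := ll_anti P y (show u + 1 ≤ c by omega)
        have h6 := L_mono P (show u + 1 ≤ c by omega)
        have h7 : ll P y (u+1) ≤ y := by unfold ll; exact h3
        exact ⟨by linarith, by linarith⟩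
      · intro n hn
        rw [Finset.mem_filter] at hn
        unfold zone
        rw [Finset.mem_union, Finset.mem_Ico, Finset.mem_Ico]
        right
        have h1 := div_lb P (u+1) n
        rw [hn.2] at h1
        have h3 := hy n hn.1
        have h4' : (y / (P.L (u+1) : ℤ) - 1 + 1) * (P.L (u+1) : ℤ) =
            ll P y (u+1) := by unfold ll; ring
        rw [h4']
        exact ⟨h1, by linarith⟩
    · right
      push Not at htr
      have hcard : ((FL P y u).card : ℤ) =
          y / (P.L u : ℤ) - (y / (P.L (u+1) : ℤ)) * (P.N u : ℤ) := by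
        unfold FL
        rw [Int.card_Ico]
        have := (kid_bounds P y u).1
        rw [Int.toNat_of_nonneg (by omega)]
      have h1 : ((FL P y u).card : ℤ) * (P.L u : ℤ) = ll P y u - ll P y (u+1) := by
        rw [hcard, ll_succ]; unfold ll; ring
      have h2 : y + 1 ≤ ll P y u + (P.L u : ℤ) := by
        unfold ll
        have := div_ub P u y
        linarith
      push_cast at htr
      by_contra hlt
      push Not at hlt
      have h3 : ((FL P y u).card : ℤ) + 1 ≤ (P.zt u : ℤ) := by exact_mod_cast hlt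
      have h4 : (((FL P y u).card : ℤ) + 1) * (P.L u : ℤ) ≤ (P.zt u : ℤ) * (P.L u : ℤ) :=
        mul_le_mul_of_nonneg_right h3 (P.LZpos u).le
      linarith

theorem L_large (P : Par) (hN2 : ∀ i, 2 ≤ P.N i) (i : ℕ) : i < P.L i := by
  induction i with
  | zero => exact P.Lpos 0
  | succ i ih =>
    rw [P.hL]
    have := Nat.mul_le_mul_left (P.L i) (hN2 i)
    omega

/-- the key lemma -/
theorem key {U M A : Finset ℤ} (hN2 : ∀ i, 2 ≤ P.N i) (hb : Bdd B U M) (hd : Disjoint U A)
    (hcard : 2 * P.L 0 + 300 ≤ A.card) :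
    ∃ e, (∃ a ∈ A, ∃ a' ∈ A, a ≤ e ∧ e ≤ a') ∧ Fine P U M A e := by
  have hne : A.Nonempty := Finset.card_pos.1 (by omega)
  obtain ⟨x, hxA, hx⟩ := Finset.exists_min_image A id hne
  obtain ⟨y, hyA, hy⟩ := Finset.exists_max_image A id hne
  simp only [id] at hx hy
  suffices hsuff : ∃ e, (x ≤ e ∧ e ≤ y) ∧ Fine P U M A e by
    obtain ⟨e, ⟨h1, h2⟩, h3⟩ := hsuff
    exact ⟨e, ⟨x, hxA, y, hyA, h1, h2⟩, h3⟩
  -- not in one leaf
  have hleaf : x / (P.L 0 : ℤ) ≠ y / (P.L 0 : ℤ) := by
    intro heq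
    have h1 : A ⊆ A.filter (fun n => n / (P.L 0 : ℤ) = x / (P.L 0 : ℤ)) := by
      intro p hp
      rw [Finset.mem_filter]
      refine ⟨hp, ?_⟩
      have h1 := Int.ediv_le_ediv (P.LZpos 0) (hx p hp)
      have h2 := Int.ediv_le_ediv (P.LZpos 0) (hy p hp)
      omega
    have h2 := Finset.card_le_card h1
    have h3 := cnt_le P A 0 (x / (P.L 0 : ℤ))
    unfold cnt at h3
    omega
  -- choose the class m
  have hm : ∃ m, x / (P.L m : ℤ) ≠ y / (P.L m : ℤ) ∧
      (x / (P.L (m+1) : ℤ) = y / (P.L (m+1) : ℤ) ∨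
        ∀ p ∈ A, p / (P.L m : ℤ) = x / (P.L m : ℤ) ∨ p / (P.L m : ℤ) = y / (P.L m : ℤ)) := by
    set m0 := x.natAbs + y.natAbs with hm0
    have hL := L_large P hN2 m0
    have hLx : |x| < (P.L m0 : ℤ) := by
      have : (x.natAbs : ℤ) = |x| := Int.natCast_natAbs x
      rw [← this]
      exact_mod_cast (by omega : x.natAbs < P.L m0)
    have hLy : |y| < (P.L m0 : ℤ) := by
      have : (y.natAbs : ℤ) = |y| := Int.natCast_natAbs y
      rw [← this]
      exact_mod_cast (by omega : y.natAbs < P.L m0)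
    rw [abs_lt] at hLx hLy
    have hval : ∀ p : ℤ, x ≤ p → p ≤ y → p / (P.L m0 : ℤ) = -1 ∨ p / (P.L m0 : ℤ) = 0 := by
      intro p h1 h2
      rcases lt_or_ge p 0 with h | h
      · left
        apply le_antisymm
        · have : p / (P.L m0 : ℤ) < 0 := Int.ediv_neg_of_neg_of_pos h (P.LZpos m0)
          omega
        · rw [Int.le_ediv_iff_mul_le (P.LZpos m0)]
          linarith
      · right
        exact Int.ediv_eq_zero_of_lt h (by linarith)
    have hxy : x ≤ y := hx y hyA
    by_cases heq : x / (P.L m0 : ℤ) = y / (P.L m0 : ℤ)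
    · have hex : ∃ j, x / (P.L j : ℤ) = y / (P.L j : ℤ) := ⟨m0, heq⟩
      obtain ⟨j0, hj0, hj0min⟩ : ∃ j0, x / (P.L j0 : ℤ) = y / (P.L j0 : ℤ) ∧
          ∀ v, v < j0 → ¬ (x / (P.L v : ℤ) = y / (P.L v : ℤ)) :=
        ⟨Nat.find hex, Nat.find_spec hex, fun v hv => Nat.find_min hex hv⟩
      have hj0pos : j0 ≠ 0 := by
        intro h0
        rw [h0] at hj0
        exact hleaf hj0
      obtain ⟨m, rfl⟩ : ∃ m, j0 = m + 1 := ⟨j0 - 1, by omega⟩
      exact ⟨m, hj0min m (by omega), Or.inl hj0⟩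
    · refine ⟨m0, heq, Or.inr ?_⟩
      intro p hp
      rcases hval p (hx p hp) (hy p hp) with h | h
      · rcases hval x le_rfl hxy with h' | h'
        · left; rw [h, h']
        · rcases hval y hxy le_rfl with h'' | h''
          · right; rw [h, h'']
          · exact absurd (h'.trans h''.symm) heq
      · rcases hval x le_rfl hxy with h' | h'
        · rcases hval y hxy le_rfl with h'' | h''
          · exact absurd (h'.trans h''.symm) heq
          · right; rw [h, h'']
        · left; rw [h, h']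
  obtain ⟨m, hmne, hm2⟩ := hm
  have hxy : x ≤ y := hx y hyA
  have hlt : x / (P.L m : ℤ) < y / (P.L m : ℤ) :=
    lt_of_le_of_ne (Int.ediv_le_ediv (P.LZpos m) hxy) hmne
  have hrm : rr P x m ≤ y := by
    unfold rr
    have h1 := div_lb P m y
    have h2 : (x / (P.L m : ℤ) + 1) * (P.L m : ℤ) ≤ (y / (P.L m : ℤ)) * (P.L m : ℤ) :=
      mul_le_mul_of_nonneg_right (by omega) (P.LZpos m).le
    linarith
  have hlm : x < ll P y m := by
    unfold ll
    have h1 := div_ub P m x
    have h2 : (x / (P.L m : ℤ) + 1) * (P.L m : ℤ) ≤ (y / (P.L m : ℤ)) * (P.L m : ℤ) :=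
      mul_le_mul_of_nonneg_right (by omega) (P.LZpos m).le
    linarith
  set T := A.filter (fun p => ¬ (p / (P.L m : ℤ) = x / (P.L m : ℤ)) ∧
    ¬ (p / (P.L m : ℤ) = y / (P.L m : ℤ))) with hTdef
  have hsplit : A.card ≤ KK P A x m + KK P A y m + T.card := by
    have h1 : A ⊆ (A.filter (fun n => n / (P.L m : ℤ) = x / (P.L m : ℤ)) ∪
        A.filter (fun n => n / (P.L m : ℤ) = y / (P.L m : ℤ))) ∪ T := by
      intro p hp
      rw [Finset.mem_union, Finset.mem_union, Finset.mem_filter, Finset.mem_filter, hTdef,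
        Finset.mem_filter]
      by_cases h1 : p / (P.L m : ℤ) = x / (P.L m : ℤ)
      · exact Or.inl (Or.inl ⟨hp, h1⟩)
      · by_cases h2 : p / (P.L m : ℤ) = y / (P.L m : ℤ)
        · exact Or.inl (Or.inr ⟨hp, h2⟩)
        · exact Or.inr ⟨hp, h1, h2⟩
    have h2 := Finset.card_le_card h1
    have h3 := Finset.card_union_le (A.filter (fun n => n / (P.L m : ℤ) = x / (P.L m : ℤ)) ∪
        A.filter (fun n => n / (P.L m : ℤ) = y / (P.L m : ℤ))) T
    have h4 := Finset.card_union_le (A.filter (fun n => n / (P.L m : ℤ) = x / (P.L m : ℤ)))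
        (A.filter (fun n => n / (P.L m : ℤ) = y / (P.L m : ℤ)))
    unfold KK
    omega
  by_cases hT : 32 ≤ T.card
  · have hpar : x / (P.L (m+1) : ℤ) = y / (P.L (m+1) : ℤ) := by
      rcases hm2 with h | h
      · exact h
      · exfalso
        obtain ⟨p, hp⟩ : T.Nonempty := Finset.card_pos.1 (by omega)
        rw [hTdef, Finset.mem_filter] at hp
        rcases h p hp.1 with h1 | h1
        · exact hp.2.1 h1
        · exact hp.2.2 h1
    obtain ⟨p, hp, e, he, hf⟩ := fine_many hb hd m (x / (P.L (m+1) : ℤ)) T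
      (Finset.filter_subset _ _) (by
        intro p hp
        rw [hTdef, Finset.mem_filter] at hp
        have h1 := Int.ediv_le_ediv (P.LZpos (m+1)) (hx p hp.1)
        have h2 := Int.ediv_le_ediv (P.LZpos (m+1)) (hy p hp.1)
        omega) hT
    refine ⟨e, ?_, hf⟩
    rw [hTdef, Finset.mem_filter] at hp
    have h1 := Int.ediv_le_ediv (P.LZpos m) (hx p hp.1)
    have h2 := Int.ediv_le_ediv (P.LZpos m) (hy p hp.1)
    have h3 : x / (P.L m : ℤ) < e / (P.L m : ℤ) := by omega
    have h4 : e / (P.L m : ℤ) < y / (P.L m : ℤ) := by omega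
    constructor
    · by_contra hlt'
      push Not at hlt'
      have := Int.ediv_le_ediv (P.LZpos m) hlt'.le
      omega
    · by_contra hlt'
      push Not at hlt'
      have := Int.ediv_le_ediv (P.LZpos m) hlt'.le
      omega
  · rcases Nat.lt_or_ge (KK P A x m) (P.L 0 + 128) with h | h
    · exact right_end hb hd x y hy m hlm (by omega)
    · exact left_end hb hd x y hx m hrm h

end Pool.Agent.Helper542.EG
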