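import Pool.Agent.Helper542.EG.Geom

set_option autoImplicit false

namespace Pool.Agent.Helper542.EG

open Finset

/-- the towers of sizes -/
def EE : ℕ → ℕ
  | 0 => 65536
  | i+1 => EE i ^ 3

theorem EE_zero : EE 0 = 65536 := rfl
theorem EE_succ (i : ℕ) : EE (i+1) = EE i ^ 3 := rfl

theorem EE_ge (i : ℕ) : 65536 ≤ EE i := by
  induction i with
  | zero => exact le_of_eq EE_zero.symm
  | succ i ih =>
    rw [EE_succ]
    calc 65536 ≤ EE i := ih
      _ = EE i ^ 1 := (pow_one _).symm
      _ ≤ EE i ^ 3 := Nat.pow_le_pow_right (by omega) (by norm_num)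

def LL : ℕ → ℕ
  | 0 => 2048
  | i+1 => LL i * (EE i ^ 2)

theorem LL_zero : LL 0 = 2048 := rfl
theorem LL_succ (i : ℕ) : LL (i+1) = LL i * (EE i ^ 2) := rfl

/-- real value -/
noncomputable def er (i : ℕ) : ℝ := (EE i : ℝ)

theorem er_zero : er 0 = 65536 := by unfold er; rw [EE_zero]; norm_num
theorem er_succ (i : ℕ) : er (i+1) = er i ^ 3 := by unfold er; rw [EE_succ]; push_cast; ring
theorem er_ge (i : ℕ) : 65536 ≤ er i := by unfold er; exact_mod_cast EE_ge i
theorem er_pos (i : ℕ) : 0 < er i := lt_of_lt_of_le (by norm_num) (er_ge i)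

noncomputable def st : ℕ → ℝ × ℝ
  | 0 => (128, 1)
  | i+1 => (er i ^ 3 + ((st i).2 * (Real.log (er i) / (st i).1 * (8 * er i)) / 16) *
      (2 * (8 * er i * (LL i : ℝ))), (st i).2 * (Real.log (er i) / (st i).1 * (8 * er i)))

noncomputable def phi (i : ℕ) : ℝ := (st i).1
noncomputable def pp (i : ℕ) : ℝ := (st i).2
noncomputable def lm (i : ℕ) : ℝ := Real.log (er i) / phi i
noncomputable def ww (i : ℕ) : ℝ := pp (i+1) / 16

theorem phi_zero : phi 0 = 128 := rfl
theorem pp_zero : pp 0 = 1 := rfl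
theorem pp_succ (i : ℕ) : pp (i+1) = pp i * (lm i * (8 * er i)) := rfl
theorem phi_succ (i : ℕ) : phi (i+1) = er i ^ 3 + ww i * (2 * (8 * er i * (LL i : ℝ))) := rfl

theorem log_er_pos (i : ℕ) : 0 < Real.log (er i) :=
  Real.log_pos (lt_of_lt_of_le (by norm_num) (er_ge i))

theorem basic (i : ℕ) : 0 < phi i ∧ 0 < pp i := by
  induction i with
  | zero => rw [phi_zero, pp_zero]; norm_num
  | succ i ih =>
    have h1 := log_er_pos i
    have h2 := er_pos i
    have h3 : 0 < lm i := div_pos h1 ih.1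
    have h4 : 0 < pp (i+1) := by
      rw [pp_succ]
      have := ih.2
      positivity
    refine ⟨?_, h4⟩
    rw [phi_succ]
    have h5 : 0 ≤ ww i := by unfold ww; positivity
    have h6 : (0:ℝ) ≤ LL i := Nat.cast_nonneg _
    positivity

theorem lm_pos (i : ℕ) : 0 < lm i := div_pos (log_er_pos i) (basic i).1
theorem ww_nonneg (i : ℕ) : 0 ≤ ww i := by
  have := (basic (i+1)).2
  unfold ww; positivity

theorem phi_succ_ge (i : ℕ) : er (i+1) ≤ phi (i+1) := by
  rw [phi_succ, er_succ]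
  have h5 := ww_nonneg i
  have h6 : (0:ℝ) ≤ LL i := Nat.cast_nonneg _
  have h7 := er_pos i
  have : 0 ≤ ww i * (2 * (8 * er i * (LL i : ℝ))) := by positivity
  linarith

theorem log_er_zero_le : Real.log (er 0) ≤ 16 := by
  rw [er_zero]
  have h : (65536:ℝ) = 2 ^ 16 := by norm_num
  rw [h, Real.log_pow]
  have h2 : Real.log 2 ≤ 2 - 1 := Real.log_le_sub_one_of_pos (by norm_num)
  push_cast
  linarith

theorem log_er_succ (i : ℕ) : Real.log (er (i+1)) = 3 * Real.log (er i) := by
  rw [er_succ, Real.log_pow]; norm_num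

theorem log_er_le (i : ℕ) : Real.log (er i) ≤ er i := by
  have := Real.log_le_sub_one_of_pos (er_pos i)
  linarith

theorem Lpp_le (i : ℕ) : (LL i : ℝ) * pp (i+1) ≤ er i ^ 2 := by
  induction i with
  | zero =>
    rw [pp_succ, pp_zero, LL_zero]
    unfold lm
    rw [phi_zero]
    have h := log_er_zero_le
    rw [er_zero] at *
    push_cast
    nlinarith
  | succ i ih =>
    have h1 := er_pos i
    have h2 := er_ge i
    have h3 := (basic (i+1)).2
    have h4 := phi_succ_ge i
    have h5 := er_pos (i+1)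
    have h6 : lm (i+1) * (8 * er (i+1)) ≤ 8 * Real.log (er (i+1)) := by
      unfold lm
      rw [div_mul_eq_mul_div, div_le_iff₀ (basic (i+1)).1]
      have := log_er_pos (i+1)
      nlinarith
    rw [pp_succ, LL_succ]
    push_cast
    have e1 : (LL i : ℝ) * (EE i : ℝ) ^ 2 * (pp (i+1) * (lm (i+1) * (8 * er (i+1)))) =
        ((LL i : ℝ) * pp (i+1)) * er i ^ 2 * (lm (i+1) * (8 * er (i+1))) := by
      unfold er; ring
    rw [e1]
    have h7 := log_er_succ i
    have h8 := log_er_le i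
    have h9 : 0 ≤ lm (i+1) * (8 * er (i+1)) := by
      have := lm_pos (i+1)
      positivity
    have h10 : lm (i+1) * (8 * er (i+1)) ≤ er i ^ 2 := by nlinarith
    calc ((LL i : ℝ) * pp (i+1)) * er i ^ 2 * (lm (i+1) * (8 * er (i+1)))
        ≤ (er i ^ 2) * er i ^ 2 * (lm (i+1) * (8 * er (i+1))) := by
          apply mul_le_mul_of_nonneg_right _ h9
          exact mul_le_mul_of_nonneg_right ih (by positivity)
      _ ≤ (er i ^ 2) * er i ^ 2 * (er i ^ 2) := by
          apply mul_le_mul_of_nonneg_left h10 (by positivity)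
      _ = er (i+1) ^ 2 := by rw [er_succ]; ring

theorem phi_succ_le (i : ℕ) : phi (i+1) ≤ 2 * er i ^ 3 := by
  rw [phi_succ]
  have h1 := Lpp_le i
  have h2 := er_pos i
  unfold ww
  have : pp (i+1) / 16 * (2 * (8 * er i * (LL i : ℝ))) = er i * ((LL i : ℝ) * pp (i+1)) := by ring
  rw [this]
  have : er i * ((LL i : ℝ) * pp (i+1)) ≤ er i * er i ^ 2 :=
    mul_le_mul_of_nonneg_left h1 h2.le
  nlinarith

noncomputable def QQ (i : ℕ) : ℝ := ∏ j ∈ Finset.range i, (8 * er j)

theorem QQ_zero : QQ 0 = 1 := by simp [QQ]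
theorem QQ_succ (i : ℕ) : QQ (i+1) = QQ i * (8 * er i) := by
  unfold QQ; rw [Finset.prod_range_succ]
theorem QQ_ge_one (i : ℕ) : 1 ≤ QQ i := by
  induction i with
  | zero => rw [QQ_zero]
  | succ i ih =>
    rw [QQ_succ]
    have := er_ge i
    nlinarith

theorem QQ_le (i : ℕ) : 8 * Real.log (er (i+1)) * QQ i ≤ er i := by
  induction i with
  | zero =>
    rw [QQ_zero, log_er_succ]
    have h := log_er_zero_le
    rw [er_zero] at *
    linarith
  | succ i ih =>
    rw [QQ_succ, log_er_succ, er_succ]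
    have h1 := er_ge i
    have h2 := er_pos i
    have e1 : 8 * (3 * Real.log (er (i+1))) * (QQ i * (8 * er i)) =
        24 * er i * (8 * Real.log (er (i+1)) * QQ i) := by ring
    rw [← er_succ, e1]
    calc 24 * er i * (8 * Real.log (er (i+1)) * QQ i) ≤ 24 * er i * er i :=
          mul_le_mul_of_nonneg_left ih (by positivity)
      _ ≤ er i ^ 3 := by nlinarith [mul_pos h2 h2]
      _ = er (i+1) := (er_succ i).symm

noncomputable def PP : Par where
  N := fun i => EE i ^ 2
  L := LL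
  zt := fun i => 8 * EE i
  lam := lm
  w := ww
  h := 1024
  hN := fun i => by have := EE_ge i; positivity
  hh := by norm_num
  hL0 := by rw [LL_zero]
  hL := fun i => LL_succ i
  hlam := lm_pos
  hw := ww_nonneg

theorem exp_lm (i : ℕ) : Real.exp (lm i * phi i) = er i := by
  unfold lm
  rw [div_mul_cancel₀ _ (basic i).1.ne', Real.exp_log (er_pos i)]

noncomputable def BB : Bd PP where
  b := fun i => 4 * phi i
  a := fun i => 8 * er i
  crit := fun i => er i ^ 2 * QQ i
  typ := fun i => er i ^ 2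
  lam0 := by
    show lm 0 ≤ 1/8
    unfold lm
    rw [phi_zero]
    have := log_er_zero_le
    linarith
  lamc := by
    intro i
    show lm (i+1) * (er i ^ 2 * QQ i) ≤ 1/8
    unfold lm
    rw [div_mul_eq_mul_div, div_le_iff₀ (basic (i+1)).1]
    have h1 := QQ_le i
    have h2 := phi_succ_ge i
    rw [er_succ] at h2
    have h3 := er_pos i
    have h4 : Real.log (er (i+1)) * (er i ^ 2 * QQ i) =
      (1/8) * er i ^ 2 * (8 * Real.log (er (i+1)) * QQ i) := by ring
    rw [h4]
    calc (1/8) * er i ^ 2 * (8 * Real.log (er (i+1)) * QQ i) ≤ (1/8) * er i ^ 2 * er i :=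
          mul_le_mul_of_nonneg_left h1 (by positivity)
      _ = (1/8) * er i ^ 3 := by ring
      _ ≤ 1/8 * phi (i+1) := by linarith
  hb := by
    intro i
    show 4 * phi (i+1) ≤ Real.exp (lm i * (4 * phi i))
    have h1 := phi_succ_le i
    have h2 := er_ge i
    have h3 : Real.exp (lm i * (4 * phi i)) = er i ^ 4 := by
      have : lm i * (4 * phi i) = ((4:ℕ):ℝ) * (lm i * phi i) := by push_cast; ring
      rw [this, Real.exp_nat_mul, exp_lm]
    rw [h3]
    have h4 := er_pos i
    have : er i ^ 4 = er i * er i ^ 3 := by ring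
    rw [this]
    have h5 : 0 < er i ^ 3 := by positivity
    nlinarith
  hb0 := by
    show 4 * phi 0 < ((1024:ℕ):ℝ)
    rw [phi_zero]; norm_num
  ha0 := fun i => by have := er_pos i; positivity
  ha := by
    intro i
    show 4 * phi (i+1) ≤ 8 * er i * ((EE i ^ 2 : ℕ) : ℝ)
    have h1 := phi_succ_le i
    have h2 : ((EE i ^ 2 : ℕ) : ℝ) = er i ^ 2 := by unfold er; push_cast; ring
    rw [h2]
    nlinarith
  hac := by
    intro i
    show 8 * er i ≤ er i ^ 2 * QQ i
    have h1 := er_ge i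
    have h2 := QQ_ge_one i
    have h3 : 8 * er i ≤ er i ^ 2 := by nlinarith
    have h4 : 0 ≤ er i ^ 2 := by positivity
    nlinarith
  hac2 := by
    intro i
    show 8 * er i * QQ i ≤ er i ^ 2 * QQ i
    have h1 := er_ge i
    have h2 := QQ_ge_one i
    apply mul_le_mul_of_nonneg_right _ (by linarith)
    nlinarith
  htyp := fun i => le_refl _
  htc := by
    intro i
    show er i ^ 2 ≤ er i ^ 2 * QQ i
    have h2 := QQ_ge_one i
    have h4 : 0 ≤ er i ^ 2 := by positivity
    nlinarith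
  hzt := by
    intro i
    show 4 * phi (i+1) ≤ ((8 * EE i : ℕ) : ℝ) * er i ^ 2
    have h1 := phi_succ_le i
    have h2 : ((8 * EE i : ℕ) : ℝ) = 8 * er i := by unfold er; push_cast; ring
    rw [h2]
    nlinarith
  hwz := by
    intro i
    have h1 : ∀ n, ∏ j ∈ Finset.range n, (lm j * (8 * er j)) = pp n := by
      intro n
      induction n with
      | zero => simp [pp_zero]
      | succ n ih => rw [Finset.prod_range_succ, ih, pp_succ]
    show 2 * ∏ j ∈ Finset.range (i+1), (lm j * (8 * er j)) ≤ ww i * 32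
    rw [h1]
    unfold ww
    linarith

theorem Phi_init (i : ℕ) (q : ℤ) : Phi PP ∅ ∅ i q = phi i := by
  induction i generalizing q with
  | zero =>
    rw [Phi_zero, phi_zero]
    have : PP.L 0 = 2048 := LL_zero
    rw [this]
    simp [cnt]
    norm_num
  | succ i ih =>
    rw [Phi_succ, phi_succ]
    have h1 : ∀ r ∈ kids PP i q, ff PP ∅ ∅ i r = er i := by
      intro r _
      unfold ff
      rw [ih]
      exact exp_lm i
    rw [Finset.sum_congr rfl h1, Finset.sum_const]
    have hc : (kids PP i q).card = EE i ^ 2 := by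
      unfold kids
      rw [Int.card_Ico]
      have : (q + 1) * (PP.N i : ℤ) - q * (PP.N i : ℤ) = ((EE i ^ 2 : ℕ) : ℤ) := by
        show (q + 1) * ((EE i ^ 2 : ℕ) : ℤ) - q * ((EE i ^ 2 : ℕ) : ℤ) = _
        ring
      rw [this, Int.toNat_natCast]
    rw [hc, nsmul_eq_mul]
    have h2 : ((EE i ^ 2 : ℕ) : ℝ) = er i ^ 2 := by unfold er; push_cast; ring
    rw [h2]
    have h3 : PP.w i = ww i := rfl
    have h4 : ((PP.zt i * PP.L i : ℕ) : ℝ) = 8 * er i * (LL i : ℝ) := by
      show ((8 * EE i * LL i : ℕ) : ℝ) = _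
      unfold er; push_cast; ring
    rw [h3, h4]
    simp
    ring

/-- the invariant -/
def Inv (U M : Finset ℤ) : Prop := ∃ T, ∀ i, T ≤ i → ∀ q, Phi PP U M i q ≤ phi i

theorem Inv_init : Inv ∅ ∅ := ⟨0, fun i _ q => (Phi_init i q).le⟩

theorem Inv.bdd {U M : Finset ℤ} (h : Inv U M) : Bdd BB U M := by
  obtain ⟨T, hT⟩ := h
  intro i q
  have hphi : ∀ j, phi j ≤ BB.b j := by
    intro j
    show phi j ≤ 4 * phi j
    have := (basic j).1
    linarith
  rcases Nat.lt_or_ge i T with h1 | h1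
  · exact bounded_of_top BB T (fun q => (hT T le_rfl q).trans (hphi T)) i h1.le q
  · exact (hT i h1 q).trans (hphi i)

theorem PP_N2 (i : ℕ) : 2 ≤ PP.N i := by
  show 2 ≤ EE i ^ 2
  have h1 := EE_ge i
  calc 2 ≤ EE i := by omega
    _ = EE i ^ 1 := (pow_one _).symm
    _ ≤ EE i ^ 2 := Nat.pow_le_pow_right (by omega) (by norm_num)

/-- one round of the game -/
theorem round {U M A : Finset ℤ} (h : Inv U M) (hd : Disjoint U A) (hA : A.card = 5000) :
    ∃ e : ℤ, Even e ∧ e ∉ M ∧ (∃ a ∈ A, ∃ a' ∈ A, a ≤ e ∧ e ≤ a') ∧ Inv (U ∪ A) (insert e M) := by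
  have hL : PP.L 0 = 2048 := LL_zero
  obtain ⟨e, h1, h2, h3, c, h4⟩ := key PP_N2 h.bdd hd (by rw [hL, hA]; norm_num)
  refine ⟨e, h2, h3, h1, ?_⟩
  obtain ⟨T, hT⟩ := h
  refine ⟨max T c, fun i hi q => ?_⟩
  exact (propagate PP Finset.subset_union_left h4 i ((le_max_right _ _).trans hi) q).trans
    (hT i ((le_max_left _ _).trans hi) q)

end Pool.Agent.Helper542.EG
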